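import Pool.Agent.helper7.ZE.Spec
import Pool.Agent.helper70.NZ.SpecC

/-!
# MP_baa4d7_al: `NE.NY.YNC` (with `BE`) gives `ND.NY.E.YNC` (with `BQ`)
-/

set_option autoImplicit false

namespace Pool.Agent.NE.NY

open Pool.Agent.helper58.DC Pool.Agent.DI Pool.Agent.GR Pool.Agent.OB Pool.Agent.DR Pool.Agent.FI Pool.Agent.FI3 Pool.Agent.FI4 Pool.Agent.FI4I Pool.Agent.LE Pool.Agent.L5
open Pool.Agent.NAB hiding Ucl BE NUB_stmt NUD_stmt NUH_stmt NUE_stmt NUF_stmt NTK_stmt NXU_stmt NQU_stmt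
open Pool.Agent.ND hiding GS ZD XX PP ZGD_stmt ZNU_stmt GBC_stmt GUC_stmt GSP_stmt GIM_stmt GST_stmt GOS_stmt GS4_stmt GFX_stmt GAC_stmt GGR_stmt GOU_stmt GSY_stmt GVF_stmt GNV_stmt GDF_stmt GC1_stmt GEV_stmt GQQ_stmt GKQ_stmt TDC_stmt GKE_stmt GKD_stmt TDI_stmt TDL_stmt TDF_stmt NDQ_stmt
open Pool.Agent.ND.NY
open Pool.Agent.ZB (Pm Om KZ EQ BQ lQ MZc BDK)

theorem Bridge (hYNC : YNC_stmt) (hBEQ : BEQ_stmt) : Pool.Agent.ND.NY.E.YNC_stmt := by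
  intro p e m M hM hEB hem G _ _ N χ hχ z x hU Δ hN hΔ d
  have h1 := hYNC p e m M hM hEB.2.2 hem G N χ hχ z x hU Δ hN hΔ d
  rw [hBEQ p e m M hM G N χ hχ z x hU (Eg p e z)] at h1
  exact h1

end Pool.Agent.NE.NY
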