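import Pool.Agent.helper7.ZE.Spec

set_option autoImplicit false

namespace Pool.Agent.NE.NY

open Pool.Agent.helper58.DC Pool.Agent.DI Pool.Agent.GR Pool.Agent.OB Pool.Agent.DR Pool.Agent.FI Pool.Agent.FI3 Pool.Agent.FI4 Pool.Agent.FI4I Pool.Agent.LE Pool.Agent.L5
open Pool.Agent.NAB hiding Ucl BE NUB_stmt NUD_stmt NUH_stmt NUE_stmt NUF_stmt NTK_stmt NXU_stmt NQU_stmt
open Pool.Agent.ND hiding GS ZD XX PP ZGD_stmt ZNU_stmt GBC_stmt GUC_stmt GSP_stmt GIM_stmt GST_stmt GOS_stmt GS4_stmt GFX_stmt GAC_stmt GGR_stmt GOU_stmt GSY_stmt GVF_stmt GNV_stmt GDF_stmt GC1_stmt GEV_stmt GQQ_stmt GKQ_stmt TDC_stmt GKE_stmt GKD_stmt TDI_stmt TDL_stmt TDF_stmt NDQ_stmt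
open Pool.Agent.ND.NY
open Pool.Agent.ZB (Pm Om KZ EQ BQ lQ MZc BDK)

theorem YBE_cj {G : Type} [Group G] (k : G) (P : Subgroup G) : cjS k⁻¹ (cjS k P) = P := by
  ext y
  rw [mem_cjS, mem_cjS]
  have e : k⁻¹ * (k⁻¹⁻¹ * y * k⁻¹) * k = y := by group
  rw [e]

theorem YBE_nz {G : Type} [Group G] (k : G) (P : Subgroup G) (h : cjS k P = P) : k ∈ nz P := by
  rw [Subgroup.mem_normalizer_iff]
  intro y
  have h1 : k * y * k⁻¹ ∈ cjS k P ↔ y ∈ P := by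
    rw [mem_cjS]
    have e : k⁻¹ * (k * y * k⁻¹) * k = y := by group
    rw [e]
  rw [h] at h1
  exact h1.symm

theorem YBE (hNUF : NUF_stmt) (hNQU : NQU_stmt) (hNUB : NUB_stmt) (hZNU : Pool.Agent.ND.NY.ZNU_stmt) (hZGP : ZGP_stmt) (hNEG : NEG_stmt) : YBE_stmt := by
  intro p e m t M hS G _ _ N χ Z z x hZ
  have hp : p.Prime := hS.1
  have hem := hZ.em
  have huc := hZ.uc
  obtain ⟨g1, g2, ⟨g3, g3'⟩, ⟨g4, g4'⟩, ⟨g5a, g5b, g5c, g5d, g5e⟩, g6, g7, g8⟩ := hZGP p e m.a hp (by omega) G z huc.pe huc.od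
  have hZz := hZ.zz
  rw [hZz] at g2 g3' g4' g5b g5c
  have h2 : GN p e m M N χ (N ⊓ nz (Eg p e z)) Z = BE p e m M N (N ⊓ nz (Eg p e z)) (Eg p e z) χ := by
    ext η
    constructor
    · rintro ⟨a1, a2, z', x', a3, a4⟩
      exact ⟨a1, a2, z', x', a3, g4' z' a3.pe a3.od a4⟩
    · rintro ⟨a1, a2, z', x', a3, a4⟩
      have b1 := hNUF p e m M hS G N (Eg p e z) η a1 z' x' a3 a4 χ a2 huc.df
      obtain ⟨k, hk, b2⟩ := (hZNU p e m M hS hem G N χ hZ.ch z x huc).1 z' x' b1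
      rw [hZz] at b2
      have b3 := (hZGP p e m.a hp (by omega) G z' a3.pe a3.od).1 k⁻¹
      rw [b2, YBE_cj] at b3
      have b4 := (hNEG p e hp G z').1 k⁻¹
      have hN : k⁻¹ ∈ N := N.inv_mem hk
      have b5 := (hNUB p e m M hS G N χ z' x' b1).2.2 k⁻¹ hN
      have b6 := g4' _ b5.pe b5.od b3
      rw [b6, a4] at b4
      have b7 : k⁻¹ ∈ nz (Eg p e z) := YBE_nz _ _ b4.symm
      have b8 := (hNUB p e m M hS G (N ⊓ nz (Eg p e z)) η z' x' a3).2.2 k⁻¹ (Subgroup.mem_inf.mpr ⟨hN, b7⟩)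
      exact ⟨a1, a2, _, _, b8, b3⟩
  refine ⟨?_, h2, ?_, g2 N huc.zm, inf_le_inf_left N g5b, inf_le_inf_left N g5c, g5c, g3'⟩
  · ext ψ
    constructor
    · rintro ⟨a1, a2, -⟩
      exact ⟨a1, a2⟩
    · rintro ⟨a1, a2⟩
      exact ⟨a1, a2, z, x, (hNUB p e m M hS G N χ z x huc).1 ψ a2.symm, hZz⟩
  · intro η hη η' hη'
    rw [h2] at hη hη'
    have c1 := hNQU p e m M hS G N (Eg p e z) χ hZ.ch z x huc η hη
    rw [c1] at hη'
    exact hη'.2.symm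

end Pool.Agent.NE.NY
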