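import Pool.Agent.helper7.ZE.Spec
set_option autoImplicit false

/-! Row ne:YFF (MP_baa4d7_al, THEOREM NE). -/

namespace Pool.Agent.NE.NY

open Pool.Agent.helper58.DC Pool.Agent.DI Pool.Agent.GR Pool.Agent.OB Pool.Agent.DR Pool.Agent.FI Pool.Agent.FI3 Pool.Agent.FI4 Pool.Agent.FI4I Pool.Agent.LE Pool.Agent.L5
open Pool.Agent.NAB hiding Ucl BE NUB_stmt NUD_stmt NUH_stmt NUE_stmt NUF_stmt NTK_stmt NXU_stmt NQU_stmt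
open Pool.Agent.ND hiding GS ZD XX PP ZGD_stmt ZNU_stmt GBC_stmt GUC_stmt GSP_stmt GIM_stmt GST_stmt GOS_stmt GS4_stmt GFX_stmt GAC_stmt GGR_stmt GOU_stmt GSY_stmt GVF_stmt GNV_stmt GDF_stmt GC1_stmt GEV_stmt GQQ_stmt GKQ_stmt TDC_stmt GKE_stmt GKD_stmt TDI_stmt TDL_stmt TDF_stmt NDQ_stmt
open Pool.Agent.ND.NY
open Pool.Agent.ZB (Pm Om KZ EQ BQ lQ MZc BDK)

theorem YFF_mul {G : Type} [Group G] (g h : G) (ψ : G → ℂ) : cjF g (cjF h ψ) = cjF (g * h) ψ := by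
  funext x
  rw [cjF_apply, cjF_apply, cjF_apply]
  have e : h⁻¹ * (g⁻¹ * x * g) * h = (g * h)⁻¹ * x * (g * h) := by group
  rw [e]

theorem YFF_one {G : Type} [Group G] (ψ : G → ℂ) : cjF (1 : G) ψ = ψ := by
  funext x
  rw [cjF_apply]
  have e : (1 : G)⁻¹ * x * 1 = x := by group
  rw [e]

theorem YFF_orb {G : Type} [Group G] (N Z : Subgroup G) (θ θ₁ θ₂ : G → ℂ) (h1 : ∃ h ∈ N ⊓ nz Z, cjF h θ = θ₁) (h2 : ∃ h ∈ N ⊓ nz Z, cjF h θ = θ₂) :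
    ∃ a ∈ Nw N 1 ⊓ nz Z, θ₂ = cjF a θ₁ := by
  obtain ⟨a, ha, rfl⟩ := h1
  obtain ⟨b, hb, rfl⟩ := h2
  have hle : N ⊓ nz Z ≤ Nw N 1 ⊓ nz Z := inf_le_inf_right _ le_sup_left
  refine ⟨b * a⁻¹, hle (Subgroup.mul_mem _ hb (Subgroup.inv_mem _ ha)), ?_⟩
  rw [YFF_mul, inv_mul_cancel_right]

theorem YFF (hYAV : YAV_stmt) : YFF_stmt := by
  intro p e m t M hM G _ _ N χ Z z x hZ hS L θ₀ hθ₀ θ₁ hθ₁ ψ hψ0 hψ1
  have hp : p.Prime := hM.1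
  have hW : WW p N Z 1 := by
    refine ⟨?_, Subgroup.one_mem _, Subgroup.one_mem _⟩
    unfold PReg
    rw [orderOf_one]
    exact hp.one_lt.ne' ∘ Nat.dvd_one.1
  obtain ⟨ν, h1, h2⟩ := hYAV p e m t M hM G N χ Z z x hZ hS 1 hW θ₀ hθ₀ {θ | ∃ h ∈ N ⊓ nz Z, cjF h θ₀ = θ} {θ | ∃ h ∈ N ⊓ nz Z, cjF h θ₁ = θ}
    (fun a ha b hb _ _ => YFF_orb N Z θ₀ a b ha hb) (fun a ha b hb _ _ => YFF_orb N Z θ₁ a b ha hb)
  obtain ⟨-, ε, hε, hR⟩ := hψ0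
  obtain ⟨-, ε₁, -, hR1⟩ := hψ1
  have a0 : iH N Z θ₀ (st Z t ν θ₀) = 0 := by
    unfold iH
    exact if_neg h1
  have a1 : iH N Z θ₁ (st Z t ν θ₀) = 0 := by
    unfold iH
    exact if_neg h2
  have a2 : iH N Z θ₀ θ₀ = 1 := by
    unfold iH
    exact if_pos ⟨1, Subgroup.one_mem _, YFF_one θ₀⟩
  have b0 := hR θ₀ hθ₀ ν
  have b1 := hR1 θ₀ hθ₀ ν
  rw [a0, a2, sub_zero, mul_one] at b0
  rw [a1, sub_zero, b0] at b1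
  by_contra hno
  have a3 : iH N Z θ₁ θ₀ = 0 := by
    unfold iH
    exact if_neg hno
  rw [a3, mul_zero] at b1
  rcases hε with h | h
  · rw [h] at b1
    exact one_ne_zero b1
  · rw [h] at b1
    exact one_ne_zero (neg_eq_zero.1 b1)

end Pool.Agent.NE.NY
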