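import Pool.Agent.helper7.ZE.Spec

/-!
# ZE port (script) of: Row ne:YGA (MP_baa4d7_al): the hypothesis `ZN` for `N = ⊤`
-/

set_option autoImplicit false

namespace Pool.Agent.NE.NY

open Pool.Agent.helper58.DC Pool.Agent.DI Pool.Agent.GR Pool.Agent.OB Pool.Agent.DR Pool.Agent.FI Pool.Agent.FI3 Pool.Agent.FI4 Pool.Agent.FI4I Pool.Agent.LE Pool.Agent.L5
open Pool.Agent.NAB hiding Ucl BE NUB_stmt NUD_stmt NUH_stmt NUE_stmt NUF_stmt NTK_stmt NXU_stmt NQU_stmt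
open Pool.Agent.ND hiding GS ZD XX PP ZGD_stmt ZNU_stmt GBC_stmt GUC_stmt GSP_stmt GIM_stmt GST_stmt GOS_stmt GS4_stmt GFX_stmt GAC_stmt GGR_stmt GOU_stmt GSY_stmt GVF_stmt GNV_stmt GDF_stmt GC1_stmt GEV_stmt GQQ_stmt GKQ_stmt TDC_stmt GKE_stmt GKD_stmt TDI_stmt TDL_stmt TDF_stmt NDQ_stmt
open Pool.Agent.ND.NY
open Pool.Agent.ZB (Pm Om KZ EQ BQ lQ MZc BDK)

theorem YGA (hGBC : GBC_stmt) : YGA_stmt := by
  intro p e m t M hS G _ _ χ Z z x h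
  have he : m.a + 3 ≤ e := by have := h.em; omega
  refine ⟨⟨h.em, h.tx, h.ch, h.uc, h.zz⟩, fun L => rfl, top_inf_eq _, top_inf_eq _, top_inf_eq _, ?_⟩
  exact (hGBC p e m M hS he G χ (⊤ : Subgroup G) Z).2.1 h.ch z x h.uc h.zz

end Pool.Agent.NE.NY
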