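import Pool.Agent.helper7.ZE.Spec

set_option autoImplicit false

namespace Pool.Agent.NE.NY

open Pool.Agent.helper58.DC Pool.Agent.DI Pool.Agent.GR Pool.Agent.OB Pool.Agent.DR Pool.Agent.FI Pool.Agent.FI3 Pool.Agent.FI4 Pool.Agent.FI4I Pool.Agent.LE Pool.Agent.L5
open Pool.Agent.NAB hiding Ucl BE NUB_stmt NUD_stmt NUH_stmt NUE_stmt NUF_stmt NTK_stmt NXU_stmt NQU_stmt
open Pool.Agent.ND hiding GS ZD XX PP ZGD_stmt ZNU_stmt GBC_stmt GUC_stmt GSP_stmt GIM_stmt GST_stmt GOS_stmt GS4_stmt GFX_stmt GAC_stmt GGR_stmt GOU_stmt GSY_stmt GVF_stmt GNV_stmt GDF_stmt GC1_stmt GEV_stmt GQQ_stmt GKQ_stmt TDC_stmt GKE_stmt GKD_stmt TDI_stmt TDL_stmt TDF_stmt NDQ_stmt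
open Pool.Agent.ND.NY
open Pool.Agent.ZB (Pm Om KZ EQ BQ lQ MZc BDK)

section

variable {G : Type} [Group G]

theorem YNC_cjF_one (ψ : G → ℂ) : cjF (1 : G) ψ = ψ := by
  funext x
  rw [cjF_apply]
  simp

theorem YNC_cjF_mul (a b : G) (ψ : G → ℂ) : cjF (a * b) ψ = cjF a (cjF b ψ) := by
  funext x
  rw [cjF_apply, cjF_apply, cjF_apply]
  congr 1
  group

theorem YNC_cjS_nz {a : G} {P : Subgroup G} (h : a ∈ nz P) : cjS a P = P := by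
  ext y
  rw [mem_cjS]
  have h1 := (Subgroup.mem_normalizer_iff.1 ((nz P).inv_mem h) y)
  rw [inv_inv] at h1
  exact h1.symm

theorem YNC_nz_of {k a : G} {P : Subgroup G} (h : cjS a P = cjS k P) : k⁻¹ * a ∈ nz P := by
  refine Subgroup.mem_normalizer_iff.2 fun y => ?_
  constructor
  · intro hy
    have h1 : a * y * a⁻¹ ∈ cjS a P := by
      rw [mem_cjS]
      have h2 : a⁻¹ * (a * y * a⁻¹) * a = y := by group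
      rwa [h2]
    rw [h, mem_cjS] at h1
    have h3 : k⁻¹ * (a * y * a⁻¹) * k = k⁻¹ * a * y * (k⁻¹ * a)⁻¹ := by group
    rwa [h3] at h1
  · intro hy
    have h1 : a * y * a⁻¹ ∈ cjS k P := by
      rw [mem_cjS]
      have h3 : k⁻¹ * (a * y * a⁻¹) * k = k⁻¹ * a * y * (k⁻¹ * a)⁻¹ := by group
      rwa [h3]
    rw [← h, mem_cjS] at h1
    have h2 : a⁻¹ * (a * y * a⁻¹) * a = y := by group
    rwa [h2] at h1

theorem YNC_cjF_mem [Finite G] (hB2 : B2_stmt) {L : Subgroup G} {ψ : G → ℂ} (h : ψ ∈ IrrOn L) {l : G} (hl : l ∈ L) :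
    cjF l ψ = ψ := by
  funext x
  rw [cjF_apply]
  have h1 := ((hB2 G L).2 ψ h).2.1 (l⁻¹ * x * l) l hl
  have h2 : l * (l⁻¹ * x * l) * l⁻¹ = x := by group
  rw [h2] at h1
  exact h1.symm

/-- all `δ ∈ Δ` stabilise the block: `Δ ≤ N * (Δ ⊓ nz Z)` -/
theorem YNC_dec {p e : ℕ} {m : Pm} {M : Ideal (integralClosure ℤ ℂ)} (hS : Setup p M) (hem : 2 * m.a + 5 ≤ e) [Finite G]
    (hZNU : Pool.Agent.ND.NY.ZNU_stmt) (hZGP : ZGP_stmt) (hNUB : NUB_stmt)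
    {N : Subgroup G} {χ : G → ℂ} (hχ : χ ∈ IrrOn N) {z x : G} (hu : Ucl p e m M N χ z x) {Δ : Subgroup G} (hN : N ≤ Δ)
    (hΔ : Δ ≤ nz N) (hst : ∀ δ ∈ Δ, SB M N (cjF δ χ) χ) :
    ∀ δ ∈ Δ, ∃ n ∈ N, ∃ w ∈ Δ, w ∈ nz (Zg p e m.a z) ∧ δ = n * w := by
  intro δ hδ
  have h1 := ((hNUB p e m M hS G N χ z x hu).2.1 δ)
  rw [YNC_cjS_nz (hΔ hδ)] at h1
  have h2 := (hNUB p e m M hS G N (cjF δ χ) _ _ h1).1 χ (hst δ hδ)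
  obtain ⟨k, hk, h3⟩ := (hZNU p e m M hS hem G N χ hχ z x hu).1 _ _ h2
  rw [(hZGP p e m.a hS.pr (by omega) G z hu.pe hu.od).1 δ] at h3
  exact ⟨k, hk, k⁻¹ * δ, Δ.mul_mem (Δ.inv_mem (hN hk)) hδ, YNC_nz_of h3, by group⟩

end

theorem YNC (hYWF : YWF_stmt) (hYSN : YSN_stmt) (hYFF : YFF_stmt) (hYBE : YBE_stmt) (hYSW : YSW_stmt) (hYPT : YPT_stmt)
    (hZNU : Pool.Agent.ND.NY.ZNU_stmt) (hZGP : ZGP_stmt) (hNUB : NUB_stmt) (hCJG : CJG_stmt) (hTEX : ND.TEX_stmt) (hB2 : B2_stmt) : YNC_stmt := by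
  intro p e m M hS heb hem G _ _ N χ hχ z x hu Δ hN hΔ d
  obtain ⟨t, ht⟩ := hTEX p hS.pr e G
  have hZN : ZN p e m t M N χ (Zg p e m.a z) z x := ⟨hem, heb, ht, hχ, hu, rfl⟩
  have hSTR := hYSN p e m t M hS G N χ (Zg p e m.a z) z x hZN
  obtain ⟨hb1, hb2, -, hb4, hb5, hb6, hb7, -⟩ := hYBE p e m t M hS G N χ (Zg p e m.a z) z x hZN
  by_cases hst : ∀ δ ∈ Δ, SB M N (cjF δ χ) χ
  · -- case B
    have hdec := YNC_dec hS hem hZNU hZGP hNUB hχ hu hN hΔ hst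
    have hsup : Δ ≤ N ⊔ (Δ ⊓ nz (Eg p e z)) := by
      intro δ hδ
      obtain ⟨n, hn, w, hw, hw', e1⟩ := hdec δ hδ
      rw [e1]
      exact Subgroup.mul_mem_sup hn ⟨hw, hb7 hw'⟩
    have hfinN : (IrrOn N).Finite := (hB2 G N).1
    have hfinN1 : (IrrOn (N ⊓ nz (Eg p e z))).Finite := (hB2 G _).1
    -- the two predicates
    have hl : {ψ : G → ℂ | ψ ∈ Bl M N χ ∧ Defect p N ψ d ∧ ∀ δ ∈ Δ, cjF δ ψ = ψ} =
        {ψ : G → ℂ | ψ ∈ Bl M N χ ∧ (Defect p N ψ d ∧ ∀ w ∈ Δ, w ∈ nz (Zg p e m.a z) → cjF w ψ = ψ)} := by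
      ext ψ
      constructor
      · rintro ⟨h1, h2, h3⟩
        exact ⟨h1, h2, fun w hw _ => h3 w hw⟩
      · rintro ⟨h1, h2, h3⟩
        refine ⟨h1, h2, fun δ hδ => ?_⟩
        obtain ⟨n, hn, w, hw, hw', e1⟩ := hdec δ hδ
        rw [e1, YNC_cjF_mul, h3 w hw hw', YNC_cjF_mem hB2 h1.1 hn]
    have hr : {η : G → ℂ | η ∈ BE p e m M N (N ⊓ nz (Eg p e z)) (Eg p e z) χ ∧ Defect p (N ⊓ nz (Eg p e z)) η d ∧
          (∀ δ ∈ Δ ⊓ nz (Eg p e z), cjF δ η = η) ∧ Δ ≤ N ⊔ (Δ ⊓ nz (Eg p e z))} =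
        {η : G → ℂ | η ∈ BE p e m M N (N ⊓ nz (Eg p e z)) (Eg p e z) χ ∧ (Defect p (N ⊓ nz (Eg p e z)) η d ∧
          ∀ w ∈ Δ, w ∈ nz (Zg p e m.a z) → cjF w η = η)} := by
      ext η
      constructor
      · rintro ⟨h1, h2, h3, -⟩
        exact ⟨h1, h2, fun w hw hw' => h3 w ⟨hw, hb7 hw'⟩⟩
      · rintro ⟨h1, h2, h3⟩
        refine ⟨h1, h2, fun δ hδ => ?_, hsup⟩
        obtain ⟨n, hn, w, hw, hw', e1⟩ := hdec δ hδ.1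
        have hn' : n ∈ nz (Eg p e z) := by
          have h4 : n = δ * w⁻¹ := by rw [e1]; group
          rw [h4]
          exact (nz (Eg p e z)).mul_mem hδ.2 ((nz (Eg p e z)).inv_mem (hb7 hw'))
        rw [e1, YNC_cjF_mul, h3 w hw hw', YNC_cjF_mem hB2 h1.1 ⟨hn, hn'⟩]
    rw [hl, hr]
    have h1z : (1 : G) ∈ nz N := (nz N).one_mem
    have h1Z : (1 : G) ∈ nz (Zg p e m.a z) := (nz (Zg p e m.a z)).one_mem
    have h1s : SB M N (cjF (1 : G) χ) χ := by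
      rw [YNC_cjF_one]
      exact SB.refl _ _
    obtain ⟨-, -, -, hsw4, -⟩ := hYSW p e m t M hS G N χ (Zg p e m.a z) z x hZN 1 h1z h1Z h1s
    have hFFeq : ∀ (L : Subgroup G) (θ₀ : G → ℂ), ∀ h ∈ N ⊓ nz (Zg p e m.a z),
        FF p e m t M N χ (Zg p e m.a z) L (cjF h θ₀) = FF p e m t M N χ (Zg p e m.a z) L θ₀ := by
      intro L θ₀ h hh
      ext ψ
      constructor
      · rintro ⟨h1, ε, h2, h3⟩
        exact ⟨h1, ε, h2, ((hsw4 h hh θ₀).2 ψ ε).1 h3⟩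
      · rintro ⟨h1, ε, h2, h3⟩
        exact ⟨h1, ε, h2, ((hsw4 h hh θ₀).2 ψ ε).2 h3⟩
    have hcpos : 0 < Nat.card (N ⊓ cz (Zg p e m.a z) : Subgroup G) := Nat.card_pos
    refine hYPT {θ : G → ℂ // θ ∈ GN p e m M N χ (N ⊓ cz (Zg p e m.a z)) (Zg p e m.a z)} (G → ℂ) (G → ℂ)
      (Bl M N χ) (BE p e m M N (N ⊓ nz (Eg p e z)) (Eg p e z) χ)
      (fun θ => FF p e m t M N χ (Zg p e m.a z) N θ.1) (fun θ => FF p e m t M N χ (Zg p e m.a z) (N ⊓ nz (Eg p e z)) θ.1)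
      (fun θ₀ θ₁ => ∃ h ∈ N ⊓ nz (Zg p e m.a z), cjF h θ₁.1 = θ₀.1) ?_ ?_ ?_ ?_ ?_ ?_ ?_ ?_ ?_ ?_
      (fun ψ => Defect p N ψ d ∧ ∀ w ∈ Δ, w ∈ nz (Zg p e m.a z) → cjF w ψ = ψ)
      (fun η => Defect p (N ⊓ nz (Eg p e z)) η d ∧ ∀ w ∈ Δ, w ∈ nz (Zg p e m.a z) → cjF w η = η) ?_
    · refine ⟨fun θ => ⟨1, (N ⊓ nz (Zg p e m.a z)).one_mem, YNC_cjF_one _⟩, ?_, ?_⟩
      · rintro θ₀ θ₁ ⟨h, hh, e1⟩
        refine ⟨h⁻¹, (N ⊓ nz (Zg p e m.a z)).inv_mem hh, ?_⟩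
        rw [← e1, ← YNC_cjF_mul, inv_mul_cancel, YNC_cjF_one]
      · rintro θ₀ θ₁ θ₂ ⟨h, hh, e1⟩ ⟨h', hh', e2⟩
        refine ⟨h * h', (N ⊓ nz (Zg p e m.a z)).mul_mem hh hh', ?_⟩
        rw [YNC_cjF_mul, e2, e1]
    · exact hfinN.subset fun ψ h => h.1
    · exact hfinN1.subset fun ψ h => h.1
    · intro θ
      refine ⟨fun ψ h => ?_, fun ψ h => ?_⟩
      · rw [← hb1]
        exact h.1
      · rw [← hb2]
        exact h.1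
    · intro ψ hψ
      rw [← hb1] at hψ
      obtain ⟨θ₀, hθ₀, h1⟩ := hSTR.ex N (Or.inl rfl) ψ hψ
      exact ⟨⟨θ₀, hθ₀⟩, h1⟩
    · intro ψ hψ
      rw [← hb2] at hψ
      obtain ⟨θ₀, hθ₀, h1⟩ := hSTR.ex (N ⊓ nz (Eg p e z)) (Or.inr rfl) ψ hψ
      exact ⟨⟨θ₀, hθ₀⟩, h1⟩
    · intro θ₀ θ₁ ψ h1 h2
      exact hYFF p e m t M hS G N χ (Zg p e m.a z) z x hZN hSTR N θ₀.1 θ₀.2 θ₁.1 θ₁.2 ψ h1 h2
    · intro θ₀ θ₁ ψ h1 h2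
      exact hYFF p e m t M hS G N χ (Zg p e m.a z) z x hZN hSTR (N ⊓ nz (Eg p e z)) θ₀.1 θ₀.2 θ₁.1 θ₁.2 ψ h1 h2
    · rintro θ₀ θ₁ ⟨h, hh, e1⟩
      refine ⟨?_, ?_⟩
      · change FF p e m t M N χ (Zg p e m.a z) N θ₀.1 = FF p e m t M N χ (Zg p e m.a z) N θ₁.1
        rw [← e1, hFFeq N θ₁.1 h hh]
      · change FF p e m t M N χ (Zg p e m.a z) (N ⊓ nz (Eg p e z)) θ₀.1 = FF p e m t M N χ (Zg p e m.a z) (N ⊓ nz (Eg p e z)) θ₁.1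
        rw [← e1, hFFeq (N ⊓ nz (Eg p e z)) θ₁.1 h hh]
    · intro θ
      have h1 := hSTR.ct N (Or.inl rfl) θ.1 θ.2
      have h2 := hSTR.ct (N ⊓ nz (Eg p e z)) (Or.inr rfl) θ.1 θ.2
      exact Nat.eq_of_mul_eq_mul_left hcpos (h1.trans h2.symm)
    · intro θ ψ hψ ψ₁ hψ₁
      have h1 := hSTR.df θ.1 θ.2 ψ hψ ψ₁ hψ₁ d
      have h2 : ∀ w ∈ Δ, w ∈ nz (Zg p e m.a z) → (cjF w ψ = ψ ↔ cjF w ψ₁ = ψ₁) := fun w hw hw' =>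
        hYWF p e m t M hS G N χ (Zg p e m.a z) z x hZN w (hΔ hw) hw' (hst w hw) θ.1 θ.2 ψ hψ ψ₁ hψ₁
      constructor
      · rintro ⟨h3, h4⟩
        exact ⟨h1.1 h3, fun w hw hw' => (h2 w hw hw').1 (h4 w hw hw')⟩
      · rintro ⟨h3, h4⟩
        exact ⟨h1.2 h3, fun w hw hw' => (h2 w hw hw').2 (h4 w hw hw')⟩
  · -- case A
    push Not at hst
    obtain ⟨δ, hδ, hns⟩ := hst
    have hl : {ψ : G → ℂ | ψ ∈ Bl M N χ ∧ Defect p N ψ d ∧ ∀ δ ∈ Δ, cjF δ ψ = ψ} = ∅ := by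
      ext ψ
      refine ⟨?_, fun h => h.elim⟩
      rintro ⟨h1, -, h3⟩
      have h4 := (hCJG G M p δ N).2.1 ψ χ h1.2
      have h5 : SB M (cjS δ N) (cjF δ ψ) (cjF δ χ) := h4
      rw [YNC_cjS_nz (hΔ hδ), h3 δ hδ] at h5
      exact hns (h5.symm.trans h1.2)
    have hr : {η : G → ℂ | η ∈ BE p e m M N (N ⊓ nz (Eg p e z)) (Eg p e z) χ ∧ Defect p (N ⊓ nz (Eg p e z)) η d ∧
          (∀ δ ∈ Δ ⊓ nz (Eg p e z), cjF δ η = η) ∧ Δ ≤ N ⊔ (Δ ⊓ nz (Eg p e z))} = ∅ := by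
      ext η
      refine ⟨?_, fun h => h.elim⟩
      rintro ⟨h1, -, h3, h4⟩
      have h5 : (δ : G) ∈ ((N ⊔ (Δ ⊓ nz (Eg p e z)) : Subgroup G) : Set G) := h4 hδ
      have h6 : Δ ⊓ nz (Eg p e z) ≤ nz N := fun y hy => hΔ hy.1
      rw [Subgroup.coe_mul_of_right_le_normalizer_left N (Δ ⊓ nz (Eg p e z)) h6] at h5
      obtain ⟨n, hn, δ₁, hδ₁, e1⟩ := Set.mem_mul.1 h5
      have h7 : SB M (cjS δ₁ N) (cjF δ₁ η) (cjF δ₁ χ) := (hCJG G M p δ₁ N).2.1 η χ h1.2.1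
      rw [YNC_cjS_nz (h6 hδ₁), h3 δ₁ hδ₁] at h7
      have h8 : SB M N (cjF δ₁ χ) χ := h7.symm.trans h1.2.1
      have h9 : SB M N (cjF n (cjF δ₁ χ)) (cjF δ₁ χ) := ((hCJG G M p n N).2.2.2.2.2.1 hn (cjF δ₁ χ)).1
      rw [← YNC_cjF_mul, e1] at h9
      exact hns (h9.trans h8)
    rw [hl, hr]

end Pool.Agent.NE.NY
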