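import Pool.Agent.helper7.ZE.Spec

/-!
# ZE port (script) of: MP_baa4d7_al, THEOREM NE, row YPF: `p`-elements fix everything
-/

set_option autoImplicit false

namespace Pool.Agent.NE.NY

open Pool.Agent.helper58.DC Pool.Agent.DI Pool.Agent.GR Pool.Agent.OB Pool.Agent.DR Pool.Agent.FI Pool.Agent.FI3 Pool.Agent.FI4 Pool.Agent.FI4I Pool.Agent.LE Pool.Agent.L5
open Pool.Agent.NAB hiding Ucl BE NUB_stmt NUD_stmt NUH_stmt NUE_stmt NUF_stmt NTK_stmt NXU_stmt NQU_stmt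
open Pool.Agent.ND hiding GS ZD XX PP ZGD_stmt ZNU_stmt GBC_stmt GUC_stmt GSP_stmt GIM_stmt GST_stmt GOS_stmt GS4_stmt GFX_stmt GAC_stmt GGR_stmt GOU_stmt GSY_stmt GVF_stmt GNV_stmt GDF_stmt GC1_stmt GEV_stmt GQQ_stmt GKQ_stmt TDC_stmt GKE_stmt GKD_stmt TDI_stmt TDL_stmt TDF_stmt NDQ_stmt
open Pool.Agent.ND.NY
open Pool.Agent.ZB (Pm Om KZ EQ BQ lQ MZc BDK)

theorem YPF_cz {G : Type} [Group G] (D : Subgroup G) : cz D ≤ nz D := by
  intro x hx
  rw [Subgroup.mem_normalizer_iff]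
  intro d
  constructor
  · intro hd
    have h1 : x * d * x⁻¹ = d := by
      rw [← (Subgroup.mem_centralizer_iff.1 hx) d hd]
      group
    rw [h1]
    exact hd
  · intro hd
    have h1 := (Subgroup.mem_centralizer_iff.1 hx) _ hd
    have h2 : d = x * d * x⁻¹ := by
      have h3 : x * d = x * (x * d * x⁻¹) := by
        rw [← h1]
        group
      exact mul_left_cancel h3
    rwa [← h2] at hd

theorem YPF_it {G : Type} [Group G] (w : G) (ψ : G → ℂ) (k : ℕ) : (fun φ : G → ℂ => cjF w φ)^[k] ψ = cjF (w ^ k) ψ := by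
  induction k with
  | zero =>
    funext x
    rw [Function.iterate_zero, id, cjF_apply, pow_zero]
    group
  | succ k ih =>
    rw [Function.iterate_succ_apply', ih]
    funext x
    simp only [cjF_apply]
    rw [pow_succ]
    group

theorem YPF_orb {α : Type} (f : α → α) (S : Set α) (hS : S.Finite) (hf : ∀ a ∈ S, f a ∈ S) (p n : ℕ) (hp : p.Prime) (hc : S.ncard ≤ p - 1)
    (a : α) (ha : a ∈ S) (hn : f^[p ^ n] a = a) : f a = a := by
  have h1 : Function.minimalPeriod f a ∣ p ^ n := Function.IsPeriodicPt.minimalPeriod_dvd hn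
  obtain ⟨i, -, hi⟩ := (Nat.dvd_prime_pow hp).1 h1
  have h2 : ∀ k : ℕ, f^[k] a ∈ S := by
    intro k
    induction k with
    | zero => exact ha
    | succ k ih =>
      rw [Function.iterate_succ_apply']
      exact hf _ ih
  have h3 : (Set.Iio (Function.minimalPeriod f a)).ncard ≤ S.ncard := by
    refine Set.ncard_le_ncard_of_injOn (fun k => f^[k] a) (fun k _ => h2 k) ?_ hS
    exact Function.iterate_injOn_Iio_minimalPeriod
  have h4 : (Set.Iio (Function.minimalPeriod f a)).ncard = Function.minimalPeriod f a := by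
    rw [← Finset.coe_Iio, Set.ncard_coe_finset, Nat.card_Iio]
  rw [h4] at h3
  have h5 : i = 0 := by
    by_contra h
    have h6 : p ≤ p ^ i := Nat.le_self_pow h p
    have := hp.two_le
    omega
  rw [h5, pow_zero] at hi
  exact (Function.minimalPeriod_eq_one_iff_isFixedPt).1 hi

theorem YPF (hYHC : YHC_stmt) (hYSW : YSW_stmt) : YPF_stmt := by
  intro p e m t M hM G _ _ N χ Z z x hZ hS w hw hwN hwZ hb L hL θ₀ hθ ⟨h, hh, hwh⟩ ψ hψ
  obtain ⟨s1, s2, s3, s4, -, -, -, -⟩ := hYSW p e m t M hM G N χ Z z x hZ w hwN hwZ hb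
  obtain ⟨l1, l2, l3⟩ := s1 L hL
  obtain ⟨c1, -, c3⟩ := hYHC p e m t M hM G N χ Z z x hZ hS L hL θ₀ hθ
  obtain ⟨j, hj⟩ := hw
  refine YPF_orb (fun φ : G → ℂ => cjF w φ) _ c1 ?_ p j hM.pr c3 ψ hψ ?_
  · rintro φ ⟨hφ, ε, hε, hR⟩
    refine ⟨s2 L l1 φ hφ, ε, hε, ?_⟩
    have h1 := s3 L l1 ((inf_le_inf_left N (YPF_cz Z)).trans l2) φ hφ θ₀ ε hR
    rw [hwh] at h1
    exact ((s4 h hh θ₀).2 _ ε).1 h1
  · rw [YPF_it, hj]
    funext x
    rw [cjF_apply]
    group

end Pool.Agent.NE.NY
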