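import Pool.Agent.helper7.ZE.Spec

/-!
# ZE port (script) of: Row ne:YRW (MP_baa4d7_al): the row of `ψ'`
-/

set_option autoImplicit false

namespace Pool.Agent.NE.NY

open Pool.Agent.helper58.DC Pool.Agent.DI Pool.Agent.GR Pool.Agent.OB Pool.Agent.DR Pool.Agent.FI Pool.Agent.FI3 Pool.Agent.FI4 Pool.Agent.FI4I Pool.Agent.LE Pool.Agent.L5
open Pool.Agent.NAB hiding Ucl BE NUB_stmt NUD_stmt NUH_stmt NUE_stmt NUF_stmt NTK_stmt NXU_stmt NQU_stmt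
open Pool.Agent.ND hiding GS ZD XX PP ZGD_stmt ZNU_stmt GBC_stmt GUC_stmt GSP_stmt GIM_stmt GST_stmt GOS_stmt GS4_stmt GFX_stmt GAC_stmt GGR_stmt GOU_stmt GSY_stmt GVF_stmt GNV_stmt GDF_stmt GC1_stmt GEV_stmt GQQ_stmt GKQ_stmt TDC_stmt GKE_stmt GKD_stmt TDI_stmt TDL_stmt TDF_stmt NDQ_stmt
open Pool.Agent.ND.NY
open Pool.Agent.ZB (Pm Om KZ EQ BQ lQ MZc BDK)

theorem YRW (hYSN : YSN_stmt) (hYUP : YUP_stmt) (hYUX : YUX_stmt) (hCJG : CJG_stmt) (hZGP : ZGP_stmt) : YRW_stmt := by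
  intro p e m t M hS G _ _ N χ Z z x w hw L hL ψ hψ ψ' hψ' hmt
  obtain ⟨χ', z', x', hZN', hL', hψ'N⟩ := hYUP p e m t M hS G N χ Z z x w hw L hL ψ hψ ψ' hψ' hmt
  have hSTR' := hYSN p e m t M hS G (Nw N w) χ' Z z' x' hZN'
  obtain ⟨θ₀', hθ₀', _, ε', hε', hRw⟩ := hSTR'.ex (Nw L w) hL' ψ' hψ'N
  refine ⟨θ₀', ε', hθ₀'.1, hε', ?_⟩
  intro θ hθ θ' hθ' hmt' ν
  obtain ⟨χ'', hZN'', hθ'N⟩ := hYUX p e m t M hS G N χ Z z x w hw θ hθ θ' hθ' hmt'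
  have hSTR'' := hYSN p e m t M hS G (Nw N w) χ'' Z z x hZN''
  have hst := (hSTR''.sm θ' hθ'N ν).1
  refine ⟨hst.1, ?_⟩
  by_cases hsb : SB M (Nw N w) χ'' χ'
  · have h1 : θ' ∈ GN p e m M (Nw N w) χ' (Nw N w ⊓ cz Z) Z :=
      ⟨hθ'N.1, hθ'N.2.1.trans hsb, hθ'N.2.2⟩
    exact hRw θ' h1 ν
  · have h2 : ψ' ∉ GN p e m M (Nw N w) χ'' (Nw L w) Z := by
      intro h
      exact hsb (h.2.1.symm.trans hψ'N.2.1)
    have hem : m.a + 3 ≤ e := by have := hZN'.em; omega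
    have hz := hZGP p e m.a hS.pr hem G z' hZN'.uc.pe hZN'.uc.od
    have hz5 := hz.2.2.2.2.1
    rw [hZN'.zz] at hz5
    have hLN : Nw L w ≤ Nw N w := by
      rcases hL' with h | h
      · exact h.le
      · rw [h]; exact inf_le_left
    have hCL : Nw N w ⊓ cz Z ≤ Nw L w := by
      rcases hL' with h | h
      · rw [h]; exact inf_le_left
      · rw [h]; exact le_inf inf_le_left (inf_le_right.trans (hz5.2.1.trans hz5.2.2.1))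
    have h3 := hSTR''.ou (Nw L w) hCL hLN ψ' hψ' h2 θ' hθ'N ν
    have key : ∀ θ₁ : G → ℂ, SB M (Nw N w) θ₁ χ'' → ¬ ∃ a ∈ Nw N w ⊓ nz Z, cjF a θ₀' = θ₁ := by
      rintro θ₁ hθ₁ ⟨a, ha, rfl⟩
      have c := ((hCJG G M p a (Nw N w)).2.2.2.2.2.1 ha.1 θ₀').1
      exact hsb ((hθ₁.symm.trans c).trans hθ₀'.2.1)
    rw [h3, sub_self, if_neg (key θ' hθ'N.2.1), if_neg (key _ hst.2.1)]
    ring

end Pool.Agent.NE.NY
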