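import Pool.Agent.helper7.ZE.Spec

/-!
# ZE port (script) of: Row ne:YUE (MP_baa4d7_al): a common unit class
-/

set_option autoImplicit false

namespace Pool.Agent.NE.NY

open Pool.Agent.helper58.DC Pool.Agent.DI Pool.Agent.GR Pool.Agent.OB Pool.Agent.DR Pool.Agent.FI Pool.Agent.FI3 Pool.Agent.FI4 Pool.Agent.FI4I Pool.Agent.LE Pool.Agent.L5
open Pool.Agent.NAB hiding Ucl BE NUB_stmt NUD_stmt NUH_stmt NUE_stmt NUF_stmt NTK_stmt NXU_stmt NQU_stmt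
open Pool.Agent.ND hiding GS ZD XX PP ZGD_stmt ZNU_stmt GBC_stmt GUC_stmt GSP_stmt GIM_stmt GST_stmt GOS_stmt GS4_stmt GFX_stmt GAC_stmt GGR_stmt GOU_stmt GSY_stmt GVF_stmt GNV_stmt GDF_stmt GC1_stmt GEV_stmt GQQ_stmt GKQ_stmt TDC_stmt GKE_stmt GKD_stmt TDI_stmt TDL_stmt TDF_stmt NDQ_stmt
open Pool.Agent.ND.NY
open Pool.Agent.ZB (Pm Om KZ EQ BQ lQ MZc BDK)

theorem YUE (hGBC : GBC_stmt) (hNXU : NXU_stmt) (hNUF : NUF_stmt) (hNQU : NQU_stmt) (hNUB : NUB_stmt) (hZGP : ZGP_stmt)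
    (hZNU : Pool.Agent.ND.NY.ZNU_stmt) (hNEG : NEG_stmt)
    (hFEQ : Pool.Agent.FI.FEQ_stmt) : YUE_stmt := by
  intro p e m t M hM G _ _ χ Z z₁ x₁ hD
  obtain ⟨hem, ht, hχ', hU₁, hZ₁⟩ := hD
  have hp : p.Prime := hM.pr
  have hme3 : m.a + 3 ≤ e := by omega
  obtain ⟨η₀, hη₀⟩ := hNXU p e m M hM G ⊤ χ hχ' z₁ x₁ hU₁
  have hQ := hNQU p e m M hM G ⊤ (Eg p e z₁) χ hχ' z₁ x₁ hU₁ η₀ hη₀
  obtain ⟨h1, h2, z', x', h3, h4⟩ := hη₀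
  have hU' := hNUF p e m M hM G ⊤ (Eg p e z₁) η₀ h1 z' x' h3 h4 χ h2 hU₁.df
  rw [top_inf_eq] at hQ h1 h3
  obtain ⟨k, -, hk⟩ := (hZNU p e m M hM hem G ⊤ χ hχ' z₁ x₁ hU₁).1 z' x' hU'
  rw [hZ₁] at hk
  -- group theory
  obtain ⟨a1, -, -, -, -, -, -, -⟩ := hZGP p e m.a hp hme3 G z' h3.pe h3.od
  obtain ⟨-, -, -, b4, -, -, -, -⟩ := hZGP p e m.a hp hme3 G z₁ hU₁.pe hU₁.od
  have hUT := (hNUB p e m M hM G ⊤ χ z' x' hU').2.2 k⁻¹ (Subgroup.mem_top _)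
  set z : G := k⁻¹ * z' * k⁻¹⁻¹ with hz
  set x : G := k⁻¹ * x' * k⁻¹⁻¹ with hx
  have hcc : ∀ (g h : G) (P : Subgroup G), cjS g (cjS h P) = cjS (g * h) P := fun g h P =>
    (hFEQ G M g h P P P χ χ χ).1.1
  have hc1 : ∀ P : Subgroup G, cjS (1 : G) P = P := fun P => (hFEQ G M 1 1 P P P χ χ χ).1.2.2.1
  have hcn : ∀ (g : G) (P : Subgroup G), cjS g P = P ↔ g ∈ nz P := fun g P =>
    (hFEQ G M g 1 P P P χ χ χ).2.1.2.2.2.1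
  have hZz : Zg p e m.a z = Z := by
    rw [hz, a1, hk, hcc, inv_mul_cancel, hc1]
  have hEz : Eg p e z = Eg p e z₁ := b4.2 z hUT.pe hUT.od (hZz.trans hZ₁.symm)
  have hEz' : Eg p e z = cjS k⁻¹ (Eg p e z') := by
    rw [hz]
    exact (hNEG p e hp G z').1 k⁻¹
  have hkE : k⁻¹ ∈ nz (Eg p e z₁) := by
    rw [← hcn, ← h4, ← hEz', hEz, h4]
  have hUN := (hNUB p e m M hM G _ η₀ z' x' h3).2.2 k⁻¹ hkE
  rw [← hz, ← hx] at hUN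
  obtain ⟨-, -, -, g4, g5, g6, -, -⟩ := hZGP p e m.a hp hme3 G z hUT.pe hUT.od
  rw [hZz, hEz] at g4 g5
  rw [hZz] at g6
  have hGT : GS p e m M χ (⊤ : Subgroup G) Z = Bl M (⊤ : Subgroup G) χ :=
    (hGBC p e m M hM hme3 G χ ⊤ Z).2.1 hχ' z x hUT hZz
  have hUN1 : ∀ ψ ∈ BE p e m M (⊤ : Subgroup G) (nz (Eg p e z₁)) (Eg p e z₁) χ, Ucl p e m M (nz (Eg p e z₁)) ψ z x := by
    intro ψ hψ
    rw [hQ] at hψ
    exact (hNUB p e m M hM G _ η₀ z x hUN).1 ψ hψ.2.symm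
  have hGN : GS p e m M χ (nz (Eg p e z₁)) Z = BE p e m M (⊤ : Subgroup G) (nz (Eg p e z₁)) (Eg p e z₁) χ := by
    ext ψ
    constructor
    · rintro ⟨a1, a2, z'', x'', a3, a4⟩
      exact ⟨a1, a2, z'', x'', a3, g4.2 z'' a3.pe a3.od a4⟩
    · intro hψ
      exact ⟨hψ.1, hψ.2.1, z, x, hUN1 ψ hψ, hZz⟩
  refine ⟨z, x, ⟨hem, ht, hχ', hUT, hZz⟩, hEz, ?_, ?_, hGT, hGN, g6.1 x hUT.re hUT.co, g5.2.1, g5.2.2.1⟩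
  · intro ψ hψ
    rw [hGT] at hψ
    exact (hNUB p e m M hM G _ χ z x hUT).1 ψ hψ.2.symm
  · intro ψ hψ
    rw [hGN] at hψ
    exact hUN1 ψ hψ

end Pool.Agent.NE.NY
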