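import Pool.Agent.helper7.ZE.Spec
set_option autoImplicit false
namespace Pool.Agent.NE.NY
open Pool.Agent.helper58.DC Pool.Agent.DI Pool.Agent.GR Pool.Agent.OB Pool.Agent.DR Pool.Agent.FI Pool.Agent.FI3 Pool.Agent.FI4 Pool.Agent.FI4I Pool.Agent.LE Pool.Agent.L5
open Pool.Agent.NAB hiding Ucl BE NUB_stmt NUD_stmt NUH_stmt NUE_stmt NUF_stmt NTK_stmt NXU_stmt NQU_stmt
open Pool.Agent.ND hiding GS ZD XX PP ZGD_stmt ZNU_stmt GBC_stmt GUC_stmt GSP_stmt GIM_stmt GST_stmt GOS_stmt GS4_stmt GFX_stmt GAC_stmt GGR_stmt GOU_stmt GSY_stmt GVF_stmt GNV_stmt GDF_stmt GC1_stmt GEV_stmt GQQ_stmt GKQ_stmt TDC_stmt GKE_stmt GKD_stmt TDI_stmt TDL_stmt TDF_stmt NDQ_stmt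
open Pool.Agent.ND.NY
open Pool.Agent.ZB (Pm Om KZ EQ BQ lQ MZc BDK)

/-- `cjS g K = K` for `g ∈ nz K` -/
theorem YUP_cjS {G : Type} [Group G] {K : Subgroup G} {g : G} (hg : g ∈ nz K) :
    K.map (MulAut.conj g).toMonoidHom = K := by
  ext y
  change y ∈ cjS g K ↔ y ∈ K
  rw [mem_cjS]
  have h := Subgroup.mem_normalizer_iff.1 ((nz K).inv_mem hg) y
  rw [inv_inv] at h
  exact h.symm

/-- stability of a block under `K ⊔ ⟨w⟩` -/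
theorem YUP_stab (hCJG : CJG_stmt) {G : Type} [Group G] [Finite G] (p : ℕ) (M : Ideal (integralClosure ℤ ℂ))
    (K : Subgroup G) (w : G) (ψ : G → ℂ) (hw : w ∈ nz K) (hs : SB M K (cjF w ψ) ψ) :
    ∀ g ∈ K ⊔ Subgroup.zpowers w, SB M K (cjF g ψ) ψ := by
  have hcc : ∀ (a b : G) (φ : G → ℂ), cjF a (cjF b φ) = cjF (a * b) φ := fun a b φ =>
    (hCJG G M p a K).2.2.2.2.2.2.2.1 b φ
  have hmv : ∀ a ∈ nz K, ∀ η φ : G → ℂ, SB M K η φ → SB M K (cjF a η) (cjF a φ) := by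
    intro a ha η φ h
    have h1 := (hCJG G M p a K).2.1 η φ h
    rwa [YUP_cjS ha] at h1
  have hin : ∀ a ∈ K, ∀ φ : G → ℂ, SB M K (cjF a φ) φ := fun a ha φ =>
    ((hCJG G M p a K).2.2.2.2.2.1 ha φ).1
  have hone : cjF (1 : G) ψ = ψ := by
    funext x
    rw [cjF_apply]
    simp
  let S : Subgroup G :=
    { carrier := {g | g ∈ nz K ∧ SB M K (cjF g ψ) ψ}
      one_mem' := by
        refine ⟨(nz K).one_mem, ?_⟩
        rw [hone]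
        exact SB.refl _ _
      mul_mem' := by
        rintro a b ⟨ha, ha'⟩ ⟨hb, hb'⟩
        refine ⟨(nz K).mul_mem ha hb, ?_⟩
        rw [← hcc]
        exact (hmv a ha _ _ hb').trans ha'
      inv_mem' := by
        rintro a ⟨ha, ha'⟩
        refine ⟨(nz K).inv_mem ha, ?_⟩
        have h1 := hmv a⁻¹ ((nz K).inv_mem ha) _ _ ha'
        rw [hcc, inv_mul_cancel, hone] at h1
        exact h1.symm }
  have hle : K ⊔ Subgroup.zpowers w ≤ S := by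
    refine sup_le ?_ ?_
    · intro a ha
      exact ⟨Subgroup.le_normalizer ha, hin a ha ψ⟩
    · rw [Subgroup.zpowers_le]
      exact ⟨hw, hs⟩
  intro g hg
  exact (hle hg).2

theorem YUP (hYUL : YUL_stmt) (hYGW : YGW_stmt) (hYSW : YSW_stmt) (hYBE : YBE_stmt) (hNUB : NUB_stmt)
    (hZUX : Pool.Agent.ZB.ZUX_stmt) (hYCV : YCV_stmt) (hNEG : NEG_stmt) (hCJG : CJG_stmt) (hZGP : ZGP_stmt) : YUP_stmt := by
  intro p e m t M hS G _ _ N χ Z z x w hw L hL ψ hψ ψ' hψ' hmt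
  have hp : p.Prime := hS.pr
  obtain ⟨hi, hsb, z', x', hucl, hzg⟩ := hψ
  have hem := hw.zn.em
  have hZ := hZGP p e m.a hp (by omega) G z hw.zn.uc.pe hw.zn.uc.od
  obtain ⟨sw1, sw2, sw3, sw4, sw5, sw6, sw7, sw8⟩ := hYSW p e m t M hS G N χ Z z x hw.zn w hw.ww.nn hw.ww.nZ hw.bs
  obtain ⟨be1, be2, be3, be4, be5, be6, be7, be8⟩ := hYBE p e m t M hS G N χ Z z x hw.zn
  have hgw := hYGW p hp G N Z w hw.ww
  rcases hL with hL | hL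
  · subst hL
    have hucl' : Ucl p e m M L ψ z x := (hNUB p e m M hS G L χ z x hw.zn.uc).1 ψ hsb.symm
    have hmv : SB M L (cjF w ψ) (cjF w χ) := by
      have h1 := (hCJG G M p w L).2.1 ψ χ hsb
      rwa [YUP_cjS hw.ww.nn] at h1
    have hst := YUP_stab hCJG p M L w ψ hw.ww.nn ((hmv.trans hw.bs).trans hsb.symm)
    have hU := hYUL p e m M hS G L w hw.ww.nn hgw.2.1 ψ' hψ' ψ hi hmt hst z x hucl'
    exact ⟨ψ', z, x, ⟨hem, hw.zn.eb, hw.zn.tx, hψ', hU, hw.zn.zz⟩, Or.inl rfl,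
      hψ', SB.refl _ _, z, x, hU, hw.zn.zz⟩
  · have hE : Eg p e z' = Eg p e z := hZ.2.2.2.1.2 z' hucl.pe hucl.od (hzg.trans hw.zn.zz.symm)
    have hwL := (sw1 L (Or.inr hL)).1
    have hww : WW p L Z w := ⟨hw.ww.re, hwL, hw.ww.nZ⟩
    have hgL := hYGW p hp G L Z w hww
    have h4 : Nw N w ⊓ nz (Eg p e z) = Nw L w := by
      rw [hgw.2.2.2.1 _ sw8, hL]
    have hcw : cjF w ψ ∈ GN p e m M N χ L Z := sw2 L hwL ψ ⟨hi, hsb, z', x', hucl, hzg⟩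
    have hs : SB M L (cjF w ψ) ψ := by
      rw [hL] at hcw ⊢
      refine be3 _ hcw _ ?_
      rw [← hL]
      exact ⟨hi, hsb, z', x', hucl, hzg⟩
    have hst := YUP_stab hCJG p M L w ψ hwL hs
    have hU := hYUL p e m M hS G L w hwL hgL.2.1 ψ' hψ' ψ hi hmt hst z' x' hucl
    have hψ'' : ψ' ∈ IrrOn (Nw N w ⊓ nz (Eg p e z)) := by rw [h4]; exact hψ'
    obtain ⟨-, n2, -, -, -, n6, -⟩ := hNEG p e hp G z
    obtain ⟨χ', hχ', hχs⟩ := hZUX p M hS G (Nw N w) (Eg p e z) (n6.1 hw.zn.uc.pe) ((n2 N hw.zn.uc.zm).trans hgw.1.1) ψ' hψ''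
    have h5 : Nw L w ⊓ N = L := by
      rw [hL]
      exact hgw.2.2.2.2.1 _ sw8
    obtain ⟨χ₁, hχ₁, hm₁, hS₁⟩ := hYCV p M hS G N (Nw N w) (Nw L w) hgw.1.1 hgw.1.2.2 (by rw [← h4]; exact inf_le_left) ψ' hψ' ψ
      (by rw [h5]; exact hi) (by rw [h5]; exact hmt) χ hw.zn.ch χ' hχ' hsb hχs
    have hU₁ : Ucl p e m M N χ₁ z x := (hNUB p e m M hS G N χ z x hw.zn.uc).1 χ₁ hS₁.symm
    have hst₁ : ∀ g ∈ Nw N w, SB M N (cjF g χ₁) χ₁ := by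
      intro g hg
      have h1 : SB M (cjS g N) (cjF g χ₁) (cjF g χ) := (hCJG G M p g N).2.1 χ₁ χ hS₁
      have hcj : cjS g N = N := YUP_cjS (hgw.1.2.2 hg)
      rw [hcj] at h1
      exact (h1.trans (sw5 g hg)).trans hS₁.symm
    have hUN := hYUL p e m M hS G N w hw.ww.nn hgw.2.1 χ' hχ' χ₁ hχ₁ hm₁ hst₁ z x hU₁
    exact ⟨χ', z, x, ⟨hem, hw.zn.eb, hw.zn.tx, hχ', hUN, hw.zn.zz⟩, Or.inr h4.symm, hψ', hχs, z', x', hU, hzg⟩

end Pool.Agent.NE.NY
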