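import Pool.Agent.helper7.ZE.Spec
import Pool.Agent.helper59.FI.Base
set_option autoImplicit false
namespace Pool.Agent.NE.NY
open Pool.Agent.helper58.DC Pool.Agent.DI Pool.Agent.GR Pool.Agent.OB Pool.Agent.DR Pool.Agent.FI Pool.Agent.FI3 Pool.Agent.FI4 Pool.Agent.FI4I Pool.Agent.LE Pool.Agent.L5
open Pool.Agent.NAB hiding Ucl BE NUB_stmt NUD_stmt NUH_stmt NUE_stmt NUF_stmt NTK_stmt NXU_stmt NQU_stmt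
open Pool.Agent.ND hiding GS ZD XX PP ZGD_stmt ZNU_stmt GBC_stmt GUC_stmt GSP_stmt GIM_stmt GST_stmt GOS_stmt GS4_stmt GFX_stmt GAC_stmt GGR_stmt GOU_stmt GSY_stmt GVF_stmt GNV_stmt GDF_stmt GC1_stmt GEV_stmt GQQ_stmt GKQ_stmt TDC_stmt GKE_stmt GKD_stmt TDI_stmt TDL_stmt TDF_stmt NDQ_stmt
open Pool.Agent.ND.NY
open Pool.Agent.ZB (Pm Om KZ EQ BQ lQ MZc BDK)

theorem YUX (hYCV : YCV_stmt) (hYUL : YUL_stmt) (hYDF : YDF_stmt) (hYGW : YGW_stmt) (hYSW : YSW_stmt) (hYBE : YBE_stmt)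
    (hEXB : EXB_stmt) (hNUB : NUB_stmt) (hNUH : NUH_stmt) (hNUD : NUD_stmt) (hDEX : DEX_stmt) (hDGL : DGL_stmt)
    (hZNU : Pool.Agent.ND.NY.ZNU_stmt) (hZGP : ND.ZGP_stmt) (hCJG : CJG_stmt) (hNLR : NLR_stmt) : YUX_stmt := by
  intro p e m t M hS G _ _ N χ Z z x w hW θ hθ θ' hθ' hmt
  have hp : p.Prime := hS.pr
  obtain ⟨hθI, hθS, z₂, x₂, hU₂, hZ₂⟩ := hθ
  have hem := hW.zn.em
  obtain ⟨⟨w1, w2, w3⟩, w4, w5, -, -, -, s, hs1, hs2, hs3⟩ := hYGW p hp G N Z w hW.ww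
  obtain ⟨-, -, -, b1, -, -, -, b2⟩ := hYBE p e m t M hS G N χ Z z x hW.zn
  obtain ⟨-, -, -, -, c1, -⟩ := hYSW p e m t M hS G N χ Z z x hW.zn w hW.ww.nn hW.ww.nZ hW.bs
  have hZcz : Z ≤ cz Z := by
    have h := (hZGP p e m.a hp (by omega) G z hW.zn.uc.pe hW.zn.uc.od).2.2.2.2.1.2.2.2.2
    rwa [hW.zn.zz] at h
  have hCN : (Nw N w ⊓ cz Z) ⊓ N = N ⊓ cz Z := by
    apply le_antisymm
    · exact fun y hy => ⟨hy.2, hy.1.2⟩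
    · exact fun y hy => ⟨⟨w1 hy.1, hy.2⟩, hy.1⟩
  obtain ⟨χ₂, hχ₂, hS₂⟩ := hEXB p M hS G (Nw N w) Z b2 (b1.trans w1) θ' hθ'
  obtain ⟨χ₁, hχ₁, hm₁, hS₁⟩ := hYCV p M hS G N (Nw N w) (Nw N w ⊓ cz Z) w1 w3 inf_le_left θ' hθ' θ
    (by rw [hCN]; exact hθI) (by rw [hCN]; exact hmt) χ hW.zn.ch χ₂ hχ₂ hθS hS₂
  have hU₁ : Ucl p e m M N χ₁ z x := (hNUB p e m M hS G N χ z x hW.zn.uc).1 χ₁ (SB.symm hS₁)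
  have hst : ∀ g ∈ Nw N w, SB M N (cjF g χ₁) χ₁ := by
    intro g hg
    have h1 : SB M (cjS g N) (cjF g χ₁) (cjF g χ) := (hCJG G M p g N).2.1 χ₁ χ hS₁
    have hcj : cjS g N = N := cj_nz.2 (w3 hg)
    rw [hcj] at h1
    exact (h1.trans (c1 g hg)).trans (SB.symm hS₁)
  have hU : Ucl p e m M (Nw N w) χ₂ z x := hYUL p e m M hS G N w hW.ww.nn w4 χ₂ hχ₂ χ₁ hχ₁ hm₁ hst z x hU₁
  obtain ⟨l, hl, hl'⟩ := hNUH p e m M hS G (Nw N w) (Nw N w ⊓ cz Z) inf_le_left θ' hθ' χ₂ hχ₂ z x hS₂ hU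
    (fun Q y hQ => hNLR p M hS G (Nw N w) (Nw N w ⊓ cz Z) Z b2 hZcz (b1.trans w1) le_rfl inf_le_left θ' hθ' θ' hθ' (SB.refl _ θ') Q y hQ)
  refine ⟨χ₂, ⟨hem, hW.zn.eb, hW.zn.tx, hχ₂, hU, hW.zn.zz⟩, hθ', hS₂, l * z * l⁻¹, l * x * l⁻¹, hl', ?_⟩
  obtain ⟨D₂, y₂, hD₂, hzD₂, -, -⟩ := (hNUD p e m M hS G (N ⊓ cz Z) θ hθI z₂ x₂ hU₂).2
  obtain ⟨η₀, hη₀, hη₀S⟩ := hDGL p M hS G (N ⊓ cz Z) θ hθI D₂ y₂ hD₂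
  obtain ⟨D, y, hD, -⟩ := hDEX p M hS G (Nw N w ⊓ cz Z) θ' hθ'
  have hpel : ∀ u ∈ (N ⊓ cz Z) ⊔ Subgroup.zpowers s, PEl p u → u ∈ N ⊓ cz Z := by
    intro u hu hpu
    rw [← hs3] at hu
    exact ⟨w4 u hu.1 hpu, hu.2⟩
  obtain ⟨l₁, hl₁, hl₁D⟩ := hYDF p M hS G (N ⊓ cz Z) s hs2 hpel θ hθI θ' (by rw [← hs3]; exact hθ') hmt D₂
    (hD₂.le.trans inf_le_left) hD₂.pg η₀ hη₀ hη₀S D y (by rw [← hs3]; exact hD)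
  rw [← hs3] at hl₁
  have hord : orderOf (l₁⁻¹ * z₂ * l₁) = p ^ e := by
    rw [← hU₂.od]
    have h := orderOf_injective (MulAut.conj l₁⁻¹).toMonoidHom (MulAut.conj l₁⁻¹).injective z₂
    have h' : (MulAut.conj l₁⁻¹).toMonoidHom z₂ = l₁⁻¹ * z₂ * l₁ := by
      change l₁⁻¹ * z₂ * l₁⁻¹⁻¹ = _
      rw [inv_inv]
    rw [h'] at h
    exact h
  obtain ⟨k, hk, hk'⟩ := (hZNU p e m M hS hem G (Nw N w ⊓ cz Z) θ' hθ' _ _ hl').2 D y hD _ (hl₁D z₂ hzD₂) hord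
  have hz2 : ND.Zg p e m.a (l₁⁻¹ * z₂ * l₁) = Z := by
    have h := (hZGP p e m.a hp (by omega) G z₂ hU₂.pe hU₂.od).1 l₁⁻¹
    have hcj : cjS l₁⁻¹ Z = Z := cj_nz.2 (cz_le_nz Z (inv_mem hl₁.2))
    rw [inv_inv, hZ₂, hcj] at h
    exact h
  rw [hk', hz2]
  exact cj_nz.2 (cz_le_nz Z hk.2)

end Pool.Agent.NE.NY
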