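import Pool.Agent.helper37.NE.All
import Pool.Agent.helper7.ZD.AllY
import Pool.Agent.helper71.ZE.NTK
import Pool.Agent.helper23.ZE.NLR
import Pool.Agent.helper26.ZE.BEQ
import Pool.Agent.helper43.ZE.NXU
import Pool.Agent.helper40.ZE.NQU
import Pool.Agent.helper85.ZE.YUL
import Pool.Agent.helper7.ZE.YGA
import Pool.Agent.helper7.ZE.YUE
import Pool.Agent.helper7.ZE.YGK
import Pool.Agent.helper7.ZE.YGD
import Pool.Agent.helper7.ZE.YST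
import Pool.Agent.helper7.ZE.YTR
import Pool.Agent.helper7.ZE.YSN
import Pool.Agent.helper7.ZE.YBE
import Pool.Agent.helper7.ZE.YSW
import Pool.Agent.helper7.ZE.YUX
import Pool.Agent.helper7.ZE.YUP
import Pool.Agent.helper7.ZE.YFY
import Pool.Agent.helper7.ZE.YAV
import Pool.Agent.helper7.ZE.YHC
import Pool.Agent.helper7.ZE.YFF
import Pool.Agent.helper7.ZE.YRW
import Pool.Agent.helper7.ZE.YEA
import Pool.Agent.helper7.ZE.YEB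
import Pool.Agent.helper7.ZE.YPF
import Pool.Agent.helper7.ZE.YWF
import Pool.Agent.helper7.ZE.YNC
import Pool.Agent.helper7.ZE.Bridge

/-!
# MP_baa4d7_al, THEOREM ZE: all rows without hypotheses (specification: `helper7/ZE/Spec`)
-/

set_option autoImplicit false

namespace Pool.Agent.NE.NY.All

theorem yNTK : NE.NY.NTK_stmt := NE.NY.NTK Pool.Agent.ND.NY.All.zZTK Pool.Agent.NAB.All.aNTK Pool.Agent.FI4I.AllI.iTR3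
theorem yNLR : NE.NY.NLR_stmt := NE.NY.NLR Pool.Agent.FI.AllA.dCNTL
theorem yBEQ : NE.NY.BEQ_stmt := NE.NY.BEQ Pool.Agent.ND.NY.All.yNUD Pool.Agent.ND.NY.All.yYE1 Pool.Agent.NAB.All.aNDG Pool.Agent.ND.NY.All.zZHE Pool.Agent.ND.NY.All.zZE1
theorem yNXU : NE.NY.NXU_stmt := NE.NY.NXU yBEQ Pool.Agent.ND.NY.All.yNUD Pool.Agent.ND.NY.All.yYE1 Pool.Agent.ND.NY.All.zZXU
theorem yNQU : NE.NY.NQU_stmt := NE.NY.NQU yBEQ Pool.Agent.ND.NY.All.yNUD Pool.Agent.ND.NY.All.yYE1 Pool.Agent.ND.NY.All.zZQU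
theorem yYUL : NE.NY.YUL_stmt := NE.NY.YUL Pool.Agent.NE.All.yYUL Pool.Agent.NE.All.yYDF Pool.Agent.NE.All.yYIX Pool.Agent.FI.AllA.dDEX Pool.Agent.FI.AllA.dDGL Pool.Agent.FI.AllA.dSYL Pool.Agent.ND.NY.All.yYE1
theorem yYGA : NE.NY.YGA_stmt := NE.NY.YGA Pool.Agent.ND.NY.All.yGBC
theorem yYUE : NE.NY.YUE_stmt := NE.NY.YUE Pool.Agent.ND.NY.All.yGBC yNXU Pool.Agent.ND.NY.All.yNUF yNQU Pool.Agent.ND.NY.All.yNUB Pool.Agent.ND.All.nZGP Pool.Agent.ND.NY.All.yZNU Pool.Agent.NAB.All.aNEG Pool.Agent.FI.AllC.cFEQ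
theorem yYGK : NE.NY.YGK_stmt := NE.NY.YGK Pool.Agent.NE.All.yYKC yYUE Pool.Agent.ND.NY.All.yGAC Pool.Agent.ND.NY.All.yGSY Pool.Agent.ND.NY.All.yGNV Pool.Agent.ND.NY.All.yGQQ Pool.Agent.ND.NY.All.yGKE yBEQ Pool.Agent.ND.NY.All.yNUD Pool.Agent.ND.NY.All.yYE1 Pool.Agent.ND.NY.All.yGST Pool.Agent.FI.AllA.dTPR Pool.Agent.GR.All.dB2
theorem yYGD : NE.NY.YGD_stmt := NE.NY.YGD yYUE Pool.Agent.ND.NY.All.yGVF Pool.Agent.ND.NY.All.yGDF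
theorem yYST : NE.NY.YST_stmt := NE.NY.YST yYGA yYGK yYGD Pool.Agent.ND.NY.All.yGOU Pool.Agent.ND.NY.All.yGST Pool.Agent.ND.NY.All.yGOS Pool.Agent.ND.NY.All.yGS4
theorem yYTR : NE.NY.YTR_stmt := NE.NY.YTR Pool.Agent.FI4I.AllI.iTR1 Pool.Agent.FI4I.AllI.iTR2 Pool.Agent.FI4I.AllI.iTR3 yNTK
theorem yYSN : NE.NY.YSN_stmt := NE.NY.YSN yYST yYTR Pool.Agent.FI4I.AllI.iTR1 Pool.Agent.FI4I.AllI.iTR2 Pool.Agent.FI4I.AllI.iTR3 yNTK Pool.Agent.NAB.All.aNEG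
theorem yYBE : NE.NY.YBE_stmt := NE.NY.YBE Pool.Agent.ND.NY.All.yNUF yNQU Pool.Agent.ND.NY.All.yNUB Pool.Agent.ND.NY.All.yZNU Pool.Agent.ND.All.nZGP Pool.Agent.NAB.All.aNEG
theorem yYSW : NE.NY.YSW_stmt := NE.NY.YSW Pool.Agent.ND.NY.All.yNUB Pool.Agent.FI.AllA.dCJG Pool.Agent.ND.All.nZGP Pool.Agent.ND.All.nZLM Pool.Agent.FI.AllC.cFEQ
theorem yYUX : NE.NY.YUX_stmt := NE.NY.YUX Pool.Agent.NE.All.yYCV yYUL Pool.Agent.NE.All.yYDF Pool.Agent.NE.All.yYGW yYSW yYBE Pool.Agent.FI.AllA.dEXB Pool.Agent.ND.NY.All.yNUB Pool.Agent.ND.NY.All.yNUH Pool.Agent.ND.NY.All.yNUD Pool.Agent.FI.AllA.dDEX Pool.Agent.FI.AllA.dDGL Pool.Agent.ND.NY.All.yZNU Pool.Agent.ND.All.nZGP Pool.Agent.FI.AllA.dCJG yNLR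
theorem yYUP : NE.NY.YUP_stmt := NE.NY.YUP yYUL Pool.Agent.NE.All.yYGW yYSW yYBE Pool.Agent.ND.NY.All.yNUB Pool.Agent.ND.NY.All.zZUX Pool.Agent.NE.All.yYCV Pool.Agent.NAB.All.aNEG Pool.Agent.FI.AllA.dCJG Pool.Agent.ND.All.nZGP
theorem yYFY : NE.NY.YFY_stmt := NE.NY.YFY Pool.Agent.NE.All.yYGW Pool.Agent.ND.All.nZLM Pool.Agent.ND.All.nZGP Pool.Agent.ND.All.nGOB
theorem yYAV : NE.NY.YAV_stmt := NE.NY.YAV yYFY Pool.Agent.ND.All.nGOB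
theorem yYHC : NE.NY.YHC_stmt := NE.NY.YHC Pool.Agent.ND.All.nZGP
theorem yYFF : NE.NY.YFF_stmt := NE.NY.YFF yYAV
theorem yYRW : NE.NY.YRW_stmt := NE.NY.YRW yYSN yYUP yYUX Pool.Agent.FI.AllA.dCJG Pool.Agent.ND.All.nZGP
theorem yYEA : NE.NY.YEA_stmt := NE.NY.YEA Pool.Agent.NE.All.yYRS yYRW Pool.Agent.NE.All.yYRI yYSW Pool.Agent.NE.All.yYCL Pool.Agent.NE.All.yYGW Pool.Agent.ND.All.nZLM Pool.Agent.GR.All.dB2
theorem yYEB : NE.NY.YEB_stmt := NE.NY.YEB yYEA yYAV Pool.Agent.NE.All.yYGR Pool.Agent.NE.All.yYCL Pool.Agent.NE.All.yYGW Pool.Agent.FI.AllA.dCJG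
theorem yYPF : NE.NY.YPF_stmt := NE.NY.YPF yYHC yYSW
theorem yYWF : NE.NY.YWF_stmt := NE.NY.YWF yYPF yYEB yYFF yYSW yYSN Pool.Agent.NE.All.yYCL Pool.Agent.NE.All.yYGW
theorem yYNC : NE.NY.YNC_stmt := NE.NY.YNC yYWF yYSN yYFF yYBE yYSW Pool.Agent.NE.All.yYPT Pool.Agent.ND.NY.All.yZNU Pool.Agent.ND.All.nZGP Pool.Agent.ND.NY.All.yNUB Pool.Agent.FI.AllA.dCJG Pool.Agent.ND.All.nTEX Pool.Agent.GR.All.dB2

theorem eYNC : Pool.Agent.ND.NY.E.YNC_stmt := NE.NY.Bridge yYNC yBEQ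

end Pool.Agent.NE.NY.All
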