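import Pool.Agent.helper12.BR.DefsAB

/-!
# Blocks whose defect group has a central (or an abelian) subgroup of bounded index and rank with one dominating invariant: definitions for the statement
-/

set_option autoImplicit false

namespace Pool.Agent.ZES

open Pool.Agent.ZBS

variable {G : Type} [Group G]

/-- At most `p` elements `y` of order dividing `p` are `p ^ t`-th powers of elements of `Z`, and the exponent of `Z` is larger than
`p ^ (t + u)`. For `Z` the direct product of cyclic groups of orders `p ^ n₁ ≥ p ^ n₂ ≥ ...` this says `n₂ ≤ t` and `t + u < n₁`. -/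
def Dominating (p t u : ℕ) (Z : Subgroup G) : Prop :=
  {y : G | y ^ p = 1 ∧ ∃ z ∈ Z, z ^ p ^ t = y}.ncard ≤ p ∧ ∃ z ∈ Z, z ^ p ^ (t + u) ≠ 1

/-- For some `a`, `r`, `t` the group `D` has a central subgroup `Z` of index at most `p ^ a` and of rank at most `r` with
`n₂ ≤ t` and `n₁ > t + a + w + 1`, `w = boundExp p a r`. -/
def DominatingCentre (p : ℕ) (D : Subgroup G) : Prop :=
  ∃ (a r t : ℕ) (Z : Subgroup G), CentralRank p a r D Z ∧ Dominating p t (a + boundExp p a r + 1) Z

/-- For some `f`, `r`, `t`, `1 ≤ r ≤ p - 2`, the group `D` has an abelian subgroup `A` (not necessarily central or normal) of index at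
most `p ^ f` and of rank at most `r` with `n₂ ≤ t`, `c ≤ t` and `n₁ > t + a + w + 1`, `c = cexp f`, `a = f + r c`, `w = boundExp p a r`. -/
def DominatingAbelian (p : ℕ) (D : Subgroup G) : Prop :=
  ∃ (f r t : ℕ) (A : Subgroup G), AbelianRank p f r D A ∧ cexp f ≤ t ∧
    Dominating p t ((f + r * cexp f) + boundExp p (f + r * cexp f) r + 1) A

end Pool.Agent.ZES
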