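import Pool.Agent.helper70.NZ.SpecC
import Pool.Agent.helper64.ZD.NDQ

/-!
# Row YNU of THEOREM NZ = ZE (MP_baa4d7_al): the final statement
-/

set_option autoImplicit false

namespace Pool.Agent.ND.NY.E

open Pool.Agent.helper58.DC Pool.Agent.DI Pool.Agent.GR Pool.Agent.OB Pool.Agent.DR Pool.Agent.FI Pool.Agent.FI3 Pool.Agent.FI4 Pool.Agent.FI4I Pool.Agent.LE Pool.Agent.L5 Pool.Agent.NAB Pool.Agent.NE
open Pool.Agent.ZB (Pm Om KZ EQ BQ lQ MZc BDK)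

theorem YNU' (hYNX : YNX_stmt) (hRE : Pool.Agent.helper58.DC.RE_stmt) (hD13 : Pool.Agent.DI.D13_stmt)
    (hYE1 : Pool.Agent.ND.NY.YE1_stmt) (hNDG : Pool.Agent.NAB.NDG_stmt) (hZMN : Pool.Agent.ZB.ZMN_stmt) (hCLS : CLS_stmt)
    (hTPR : Pool.Agent.FI.TPR_stmt) : YNU_stmt := by
  intro p M hS a r s w has haw hBD G E A _ _ _ _ _ X hOp χ hχ D hD Z hZ hc hcard hrank hom1 hexp d U
  have hpr : p.Prime := hS.pr
  obtain ⟨hT1, -, hT3, -, hT5⟩ := hTPR p M hS G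
  have hom : ∀ y : G, omega χ y = cc χ (cls ⊤ y) := fun y => (hCLS G ⊤ y).2.2.2.2.2.2.2.1 χ
  have hχ' : χ ∈ IrrOn (⊤ : Subgroup G) := by rw [hT1]; exact hχ
  have hint : ∀ y : G, IsIntegral ℤ (cc χ (cls ⊤ y)) := fun y =>
    (hCLS G ⊤ y).2.2.2.2.2.2.2.2 ⊤ le_rfl χ hχ'
  have hnv : ∀ w : G, Pool.Agent.MAP.NonVan M χ w ↔ ¬ InM M (omega χ w) := by
    intro w
    constructor
    · intro h h1
      rw [hom] at h1
      have h2 : InM M (((⟨cc χ (cls ⊤ w), hint w⟩ : integralClosure ℤ ℂ)) : ℂ) := h1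
      exact h _ (InM.mem hS h2) (hom w)
    · intro h a ha h1
      apply h
      rw [h1]
      exact InM.coe hS ha
  obtain ⟨x, h1, h2, h3, h4, h5, h6⟩ := hD
  have hDcard : Nat.card D = pp p (Subgroup.centralizer ({x} : Set G)) :=
    (Pool.Agent.ZB.ZFD_pp hpr h3 h4).2 h5
  have hDA : DefAt p M χ D x := by
    refine ⟨h1, (hnv x).1 h2, h3, h4, hDcard, fun y hy => ?_⟩
    obtain ⟨Q, h7, h8, h9⟩ := h6 y ((hnv y).2 hy)
    exact h9.trans (Pool.Agent.ZB.ZFD_pp hpr h7 h8).1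
  have hOm : Om p 0 Z = {z | z ∈ Z ∧ z ^ p = 1} := by
    ext y
    constructor
    · rintro ⟨k1, z, hz, k2⟩
      rw [pow_zero, pow_one] at k2
      rw [← k2]
      rw [← k2] at k1
      exact ⟨hz, k1⟩
    · rintro ⟨k1, k2⟩
      refine ⟨k2, y, k1, ?_⟩
      rw [pow_zero, pow_one]
  have hZp : IsPGroup p Z := h4.to_le hZ
  obtain ⟨hc1, hc2⟩ := NDQ_count hpr hZp hom1 hexp
  have hK : KZ p (⟨a, r, s, w, 1⟩ : Pm) D :=
    ⟨has, le_rfl, h4, Z, hZ, hc, hcard, by rw [hOm]; exact hrank, hc1, hc2⟩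
  have hB : BDK p (⟨a, r, s, w, 1⟩ : Pm) M w := hBD _ rfl rfl rfl
  obtain ⟨hY1, hY6⟩ := hYE1 p hpr (⟨a, r, s, w, 1⟩ : Pm) G D
  obtain ⟨e, hKY⟩ := hY6 hK rfl haw
  obtain ⟨-, hem, -, -, -, -, z, hzD, hzc, hzo⟩ := hY1 e hKY
  have hDL : DefL p M (⊤ : Subgroup G) χ D x := hT3 χ D x hDA
  have hcom : z * x = x * z := by
    have h := Subgroup.mem_centralizer_iff.1 (h3 hzD) x rfl
    exact h.symm
  have hzp : PEl p z := ⟨e, by rw [← hzo, pow_orderOf_eq_one]⟩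
  have hU : Ucl p e (⟨a, r, s, w, 1⟩ : Pm) M (⊤ : Subgroup G) χ z x :=
    ⟨hzp, h1, hcom, Subgroup.mem_top _, Subgroup.mem_top _, hzo, hNDG p M hS G ⊤ χ hχ' D x hDL z hzD hzc, D, x, hDL, hKY⟩
  have hA : Finite A := Finite.of_surjective X.proj X.proj_surjective
  have hEB : EBc p (⟨a, r, s, w, 1⟩ : Pm) M := ⟨rfl, haw, fun H _ _ => hZMN p ⟨a, r, s, w, 1⟩ M hS hB H⟩
  have hall := hD13 A (fun V => altSum X p M χ d V) (fun V => by
    have h9 := hRE G E A X p M χ hχ d V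
    rw [← h9]
    exact hYNX p e _ M hS hEB hem G _ _ (resE X V) hOp χ hχ z x hU d)
  exact hall U

end Pool.Agent.ND.NY.E
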