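import Pool.Agent.helper7.ZE.AllZE
import Pool.Agent.helper7.ZE.YNU
import Pool.Agent.helper7.ZD.DefsY
import Pool.Agent.helper22.NZ.YTD
import Pool.Agent.helper69.NZ.YNL
import Pool.Agent.helper73.NZ.YTL
import Pool.Agent.helper14.NZ.YNF
import Pool.Agent.helper70.NZ.YNG
import Pool.Agent.helper21.NZ.YTC
import Pool.Agent.helper13.NZ.YKT
import Pool.Agent.helper70.NZ.YNX
import Pool.Agent.helper26.NE.INF
import Pool.Agent.helper7.ZB.FinZ2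

/-!
# MP_baa4d7_al, THEOREM ZE: Q1 for EVERY extension `E`, every `d`, every `U`, for blocks whose defect group has a dominating centre
-/

set_option autoImplicit false

namespace Pool.Agent.NE.NY.All

theorem eYKT : ND.NY.E.YKT_stmt := ND.NY.E.YKT
theorem eYTD : ND.NY.E.YTD_stmt := ND.NY.E.YTD ND.NY.All.zZUH ND.NY.All.zZE1 ND.NY.All.zZUB ND.NY.All.zZE2 ND.NY.All.yNUD ND.NY.All.yYE1 FI.AllA.dCJG
theorem eYNL : ND.NY.E.YNL_stmt := ND.NY.E.YNL NAB.AllE.eXPB eYNC eYTD ND.NY.All.yNUH ND.NY.All.zZUX ND.NY.All.zZE1 FI.AllA.dTRN GR.All.dB2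
theorem eYTL : ND.NY.E.YTL_stmt := ND.NY.E.YTL DR.All.rCFA NAB.All.aNFV FI.AllA.dCNTL
theorem eYNF : ND.NY.E.YNF_stmt := ND.NY.E.YNF eYNL eYTL FI.AllC.cFNO NE.All.yYTG ND.NY.All.zZE1
theorem eYNG : ND.NY.E.YNG_stmt := ND.NY.E.YNG eYNF NE.All.yYCB FI.AllC.cFNO
theorem eYTC : ND.NY.E.YTC_stmt := ND.NY.E.YTC DR.AllDI.iB13 FI.AllA.dTPR FI.AllA.dDCM eYKT
theorem eYNX : ND.NY.E.YNX_stmt := ND.NY.E.YNX NE.All.yYR0 eYNG eYTC DR.AllDI.iSTx
theorem eYNU : ND.NY.E.YNU_stmt := ND.NY.E.YNU' eYNX DR.AllDI.iREx DR.AllDI.iD13 ND.NY.All.yYE1 NAB.All.aNDG ND.NY.All.zZMN FI.AllA.dCLS FI.AllA.dTPR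

end Pool.Agent.NE.NY.All

namespace Pool.Agent.ZBS

open Pool.Agent.helper58.DC Pool.Agent.DI Pool.Agent.GR Pool.Agent.OB Pool.Agent.DR Pool.Agent.FI Pool.Agent.FI3 Pool.Agent.FI4
open Pool.Agent.ZB (Om Pm BDK KZ)

theorem boundExp_ge' (p a r : ℕ) (hr : 1 ≤ r) : a + 4 ≤ boundExp p a r + 1 := by
  have h1 : 3 * (1 + 2 * (a + 2 * a * 1)) ≤ (r + 2) * (r * (r + 1) / 2 + 2 * (a + 2 * a * r)) := by
    refine Nat.mul_le_mul (by omega) (Nat.add_le_add ?_ (Nat.mul_le_mul_left 2 (Nat.add_le_add_left (Nat.mul_le_mul_left _ hr) a)))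
    have h2 : 1 * (1 + 1) ≤ r * (r + 1) := Nat.mul_le_mul hr (by omega)
    omega
  unfold boundExp
  omega

/-- Finite `E`. -/
theorem everyE_fin {p : ℕ} {M : Ideal (integralClosure ℤ ℂ)} (hS : Setup p M)
    (G : Type) [Group G] [Finite G] (hO : IsOp p (⊤ : Subgroup G) ⊥) (χ : G → ℂ) (hχ : χ ∈ Irr G) (D : Subgroup G)
    (hD : Pool.Agent.MAP.DefectGroup p M χ D) (hL : DominatingCentre p D)
    (E A : Type) [Group E] [Group A] [Finite E] (X : Extension G E A) (d : ℤ) (U : Subgroup A) : altSum X p M χ d U = 0 := by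
  obtain ⟨a, r, s, has, Z, hZ, hOm, hz⟩ := hL
  refine Pool.Agent.NE.NY.All.eYNU p M hS a r s (boundExp p a r + 1) has (boundExp_ge' p a r hZ.pos) ?_ G E A X hO χ hχ D hD Z hZ.le
    hZ.central hZ.index hZ.rank hOm hz d U
  intro κ h1 h2 _ G' _ _ L ψ hψ D' y' hD' hK'
  obtain ⟨l, h3, h4, h5⟩ := bdk (Pool.Agent.GB.AllL.lBLP p) hS a r hZ.pos κ h1 h2 G' L ψ hψ D' y' hD' hK'
  exact ⟨l, h3, h4, h5.trans (Nat.pow_le_pow_right hS.pr.pos (Nat.le_succ _))⟩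

/-- THEOREM ZE: Q1 in full (every `d`, `U`, and EVERY extension) for blocks whose defect group has a dominating centre. -/
theorem everyE (p : ℕ) (hpr : p.Prime) (M : Ideal (integralClosure ℤ ℂ)) (hM : M.IsMaximal)
    (hp : (p : integralClosure ℤ ℂ) ∈ M) (G : Type) [Group G] [Finite G] (hG : IsOp p (⊤ : Subgroup G) ⊥)
    (χ : G → ℂ) (hχ : χ ∈ Irr G) (D : Subgroup G) (hD : Pool.Agent.MAP.DefectGroup p M χ D) (hL : DominatingCentre p D)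
    (E A : Type) [Group E] [Group A] (X : Extension G E A) (d : ℤ) (U : Subgroup A) :
    altSum X p M χ d U = 0 :=
  Pool.Agent.NEI.main X p M χ d (fun E' A' _ _ _ X' U' =>
    everyE_fin ⟨hpr, hM, hp⟩ G hG χ hχ D hD hL E' A' X' d U') U

end Pool.Agent.ZBS
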