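import Pool.Agent.helper7.ZE.FinE
import Pool.Agent.helper7.ZE.DefsE
import Pool.Agent.helper12.BR.ABZ
import Pool.Agent.helper37.NE.FinN

/-!
# MP_baa4d7_al, THEOREM ZE: the final theorem with central and abelian subgroups
-/

set_option autoImplicit false

namespace Pool.Agent.ZES

open Pool.Agent.ZBS
open Pool.Agent.helper58.DC Pool.Agent.DI

/-- The central subgroup of the powers of the elements of `A`. -/
theorem central_rank' {p r : ℕ} (hp : p.Prime) {G : Type} [Group G] [Finite G] {f : ℕ} {D A : Subgroup G} (hD : IsPGroup p D)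
    (h : AbelianRank p f r D A) : ∃ Z : Subgroup G, CentralRank p (f + r * cexp f) r D Z ∧ (∀ y ∈ Z, ∃ b ∈ A, b ^ p ^ cexp f = y) ∧
      ∀ x ∈ A, x ^ p ^ cexp f ∈ Z := by
  classical
  have hc := pow_central hp hD h
  let Z : Subgroup G :=
    { carrier := {c | ∃ b ∈ A, b ^ p ^ cexp f = c}
      one_mem' := ⟨1, A.one_mem, one_pow _⟩
      mul_mem' := by
        rintro _ _ ⟨b, hb, rfl⟩ ⟨c, hc, rfl⟩
        exact ⟨b * c, A.mul_mem hb hc, (show Commute b c from h.comm b hb c hc).mul_pow _⟩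
      inv_mem' := by
        rintro _ ⟨b, hb, rfl⟩
        exact ⟨b⁻¹, A.inv_mem hb, inv_pow _ _⟩ }
  have hZA : Z ≤ A := by
    rintro _ ⟨b, hb, rfl⟩
    exact A.pow_mem hb _
  refine ⟨Z, ⟨h.pos, hZA.trans h.le, ?_, ?_, ?_⟩, fun y hy => hy, fun x hx => ⟨x, hx, rfl⟩⟩
  · rintro _ ⟨b, hb, rfl⟩ x hx
    exact (hc b hb x hx).symm
  · have hf : ∀ s : Set G, s.Finite := fun s => Set.toFinite s
    have h1 := Finset.card_le_mul_card_image_of_maps_to (s := (hf (A : Set G)).toFinset)
      (t := (hf (Z : Set G)).toFinset) (f := fun u => u ^ p ^ cexp f) ?_ (p ^ (r * cexp f)) ?_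
    · rw [← Set.ncard_eq_toFinset_card _ (hf _), ← Set.ncard_eq_toFinset_card _ (hf _)] at h1
      have h2 : Nat.card A ≤ p ^ (r * cexp f) * Nat.card Z := h1
      refine h.index.trans ?_
      rw [pow_add, mul_assoc]
      exact Nat.mul_le_mul_left _ h2
    · intro u hu
      rw [Set.Finite.mem_toFinset] at hu ⊢
      exact ⟨u, hu, rfl⟩
    · intro y hy
      rw [Set.Finite.mem_toFinset] at hy
      obtain ⟨u₀, h2, h3⟩ := hy
      have h3' : u₀ ^ p ^ cexp f = y := h3
      refine le_trans ?_ (card_pow_le p r A h.comm h.rank (cexp f))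
      rw [Set.ncard_eq_toFinset_card _ (hf _)]
      refine Finset.card_le_card_of_injOn (fun u => u₀⁻¹ * u) ?_ ?_
      · intro u hu
        rw [Finset.mem_coe, Finset.mem_filter, Set.Finite.mem_toFinset] at hu
        obtain ⟨hu1, hu3⟩ := hu
        have hu1' : u ∈ A := hu1
        rw [Finset.mem_coe, Set.Finite.mem_toFinset]
        refine ⟨A.mul_mem (A.inv_mem h2) hu1', ?_⟩
        have h4 : Commute u₀⁻¹ u := (show Commute u₀ u from h.comm u₀ h2 u hu1').inv_left
        rw [h4.mul_pow, inv_pow, h3']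
        change y⁻¹ * u ^ p ^ cexp f = 1
        rw [hu3, inv_mul_cancel]
      · intro u _ v _ h
        exact mul_left_cancel h
  · refine le_trans (Set.ncard_le_ncard ?_ (Set.toFinite _)) h.rank
    exact fun u hu => ⟨hZA hu.1, hu.2⟩

theorem centre_of {p : ℕ} {G : Type} [Group G] {D : Subgroup G} (h : DominatingCentre p D) :
    Pool.Agent.ZBS.DominatingCentre p D := by
  obtain ⟨a, r, t, Z, hZ, h1, z, hz, hz1⟩ := h
  refine ⟨a, r, t + a, Nat.le_add_left _ _, Z, hZ, ?_, z, hz, ?_⟩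
  · rw [Nat.add_sub_cancel]
    exact h1
  · have h2 : t + a + boundExp p a r + 1 = t + (a + boundExp p a r + 1) := by omega
    rw [h2]
    exact hz1

theorem centre_of_abelian {p : ℕ} (hp : p.Prime) {G : Type} [Group G] [Finite G] {D : Subgroup G} (hD : IsPGroup p D)
    (h : DominatingAbelian p D) : DominatingCentre p D := by
  obtain ⟨f, r, t, A, hA, hct, h1, z, hz, hz1⟩ := h
  obtain ⟨Z, hZ, hZA, hZ1⟩ := central_rank' hp hD hA
  have h0 : cexp f + (t - cexp f) = t := by omega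
  refine ⟨f + r * cexp f, r, t - cexp f, Z, hZ, ?_, z ^ p ^ cexp f, hZ1 z hz, ?_⟩
  · refine le_trans (Set.ncard_le_ncard ?_ (Set.toFinite _)) h1
    rintro y ⟨h2, u, hu, h3⟩
    obtain ⟨b, hb, rfl⟩ := hZA u hu
    refine ⟨h2, b, hb, ?_⟩
    rw [← pow_mul, ← pow_add, h0] at h3
    exact h3
  · rw [← pow_mul, ← pow_add, ← Nat.add_assoc, h0]
    exact hz1

/-- Q1 in full for all blocks whose defect group has a large or a dominating central (or abelian) subgroup. -/
theorem dade (p : ℕ) (hpr : p.Prime) (M : Ideal (integralClosure ℤ ℂ)) (hM : M.IsMaximal)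
    (hp : (p : integralClosure ℤ ℂ) ∈ M) (G : Type) [Group G] [Finite G] (hG : IsOp p (⊤ : Subgroup G) ⊥)
    (χ : G → ℂ) (hχ : χ ∈ Irr G) (D : Subgroup G) (hD : Pool.Agent.MAP.DefectGroup p M χ D)
    (hL : Pool.Agent.NDS.LargeCentral p D ∨ Pool.Agent.NDS.LargeCyclicSubgroup p D ∨ DominatingCentre p D ∨ DominatingAbelian p D)
    (E A : Type) [Group E] [Group A] (X : Extension G E A) (d : ℤ) (U : Subgroup A) :
    altSum X p M χ d U = 0 := by
  have hDp : IsPGroup p D := by
    obtain ⟨x, -, -, -, h, -⟩ := hD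
    exact h
  rcases hL with h | h | h | h
  · exact Pool.Agent.NDS.FinN_dade p hpr M hM hp G hG χ hχ D hD (Or.inl h) E A X d U
  · exact Pool.Agent.NDS.FinN_dade p hpr M hM hp G hG χ hχ D hD (Or.inr h) E A X d U
  · exact everyE p hpr M hM hp G hG χ hχ D hD (centre_of h) E A X d U
  · exact everyE p hpr M hM hp G hG χ hχ D hD (centre_of (centre_of_abelian hpr hDp h)) E A X d U

end Pool.Agent.ZES
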