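import Mathlib
import Pool.Agent.helper37.NE.SpecB
import Pool.Agent.helper7.ZD.Spec

/-!
# MP_baa4d7_al, THEOREM ZE = NE for the class of ZD: Q1 for EVERY finite `E`, every `d`, every `U`, for blocks with a large centre of the defect group with a dominating invariant

PORT of the project NE of helper37 (`helper37/NE/Defs`, `SpecA`, `SpecB`), `m : ℕ` replaced by `m : Pm`, `Ucl` (with `df`) of ZD. `ZN.eb` is now the count equality `MZc p m M Γ` for all finite groups `Γ` (true by ZMN and the bound `BDK`). `BE` below is defined with `Ucl`; BEQ: it agrees with `BQ` of ZB for `K = L ⊓ nz E`.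
Pure rows of NE (YKC YCL YLN YGW YGR YRI YPT YTG YIX YCV YDF YRS) and the definitions `L2`, `iH`, `WW`, `Nw`, `rN'`, `RO`, `lc` are those of NE (no prefix needed in this namespace).

RULES FOR ROWS. File `Pool/Agent/<seat>/ZE/XXX.lean` with

  import Pool.Agent.helper7.ZE.Spec
  set_option autoImplicit false
  namespace Pool.Agent.NE.NY
  (the open lines of this file: copy all five)
  theorem XXX (hYYY : YYY_stmt) ... : XXX_stmt := ...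
  end Pool.Agent.NE.NY

auxiliary lemmas prefixed `XXX_`, no sorry, no double quotes in the file, no `convert`, no `congr!`. Rows of `ND.NY` (`NUD_stmt`, `NUF_stmt`, `ZNU_stmt`, ..) without prefix; `Pool.Agent.NAB.NUH_stmt`, `Pool.Agent.ZB.ZHE_stmt` .. with prefix. All rows of all earlier specs may be added as hypotheses.
-/

set_option autoImplicit false

namespace Pool.Agent.NE.NY

open Pool.Agent.helper58.DC Pool.Agent.DI Pool.Agent.GR Pool.Agent.OB Pool.Agent.DR Pool.Agent.FI Pool.Agent.FI3 Pool.Agent.FI4 Pool.Agent.FI4I Pool.Agent.LE Pool.Agent.L5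
open Pool.Agent.NAB hiding Ucl BE NUB_stmt NUD_stmt NUH_stmt NUE_stmt NUF_stmt NTK_stmt NXU_stmt NQU_stmt
open Pool.Agent.ND hiding GS ZD XX PP ZGD_stmt ZNU_stmt GBC_stmt GUC_stmt GSP_stmt GIM_stmt GST_stmt GOS_stmt GS4_stmt GFX_stmt GAC_stmt GGR_stmt GOU_stmt GSY_stmt GVF_stmt GNV_stmt GDF_stmt GC1_stmt GEV_stmt GQQ_stmt GKQ_stmt TDC_stmt GKE_stmt GKD_stmt TDI_stmt TDL_stmt TDF_stmt NDQ_stmt
open Pool.Agent.ND.NY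
open Pool.Agent.ZB (Pm Om KZ EQ BQ lQ MZc BDK)

section

variable {G : Type} [Group G]

/-- The characters of the subgroup `K` in the blocks `b` of `K` with `b ^ L` the block of `ψ` which have a unit class with `Eg = E`. -/
def BE (p e : ℕ) (m : Pm) (M : Ideal (integralClosure ℤ ℂ)) (L K E : Subgroup G) (ψ : G → ℂ) : Set (G → ℂ) :=
  {η | η ∈ IrrOn K ∧ SB M L η ψ ∧ ∃ z x : G, Ucl p e m M K η z x ∧ Eg p e z = E}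

/-- `GS` relative to the subgroup `N`: the characters `ψ` of `L` with `b(ψ)^N = B` and a unit class `z x`, `Zg z = Z`. -/
def GN (p e : ℕ) (m : Pm) (M : Ideal (integralClosure ℤ ℂ)) (N : Subgroup G) (χ : G → ℂ) (L Z : Subgroup G) : Set (G → ℂ) :=
  {ψ | ψ ∈ IrrOn L ∧ SB M N ψ χ ∧ ∃ z x : G, Ucl p e m M L ψ z x ∧ Zg p e m.a z = Z}

/-- The standing hypothesis for `N`. -/
structure ZN (p e : ℕ) (m : Pm) (t : ℕ) (M : Ideal (integralClosure ℤ ℂ)) (N : Subgroup G) (χ : G → ℂ) (Z : Subgroup G) (z x : G) : Prop where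
  em : 2 * m.a + 5 ≤ e
  eb : (∀ (Γ : Type) [Group Γ] [Finite Γ], MZc p m M Γ)
  tx : Tx p e t G
  ch : χ ∈ IrrOn N
  uc : Ucl p e m M N χ z x
  zz : Zg p e m.a z = Z

/-- The row of `ψ` belongs to the orbit of `θ₀`, with the sign `ε`. -/
def Rw (p e : ℕ) (m : Pm) (t : ℕ) (M : Ideal (integralClosure ℤ ℂ)) (N : Subgroup G) (χ : G → ℂ) (Z : Subgroup G) (ψ θ₀ : G → ℂ) (ε : ℂ) : Prop :=
  ∀ θ ∈ GN p e m M N χ (N ⊓ cz Z) Z, ∀ ν : Z →* ℂˣ,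
    mt (N ⊓ cz Z) ψ θ - mt (N ⊓ cz Z) ψ (st Z t ν θ) = ε * (iH N Z θ₀ θ - iH N Z θ₀ (st Z t ν θ))

/-- The characters of `L` whose row belongs to the orbit of `θ₀`. -/
def FF (p e : ℕ) (m : Pm) (t : ℕ) (M : Ideal (integralClosure ℤ ℂ)) (N : Subgroup G) (χ : G → ℂ) (Z L : Subgroup G) (θ₀ : G → ℂ) : Set (G → ℂ) :=
  {ψ | ψ ∈ GN p e m M N χ L Z ∧ ∃ ε : ℂ, (ε = 1 ∨ ε = -1) ∧ Rw p e m t M N χ Z ψ θ₀ ε}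

/-- THE STRUCTURE THEOREM for `(N, χ)`, `Z`, `z`. -/
structure STR (p e : ℕ) (m : Pm) (t : ℕ) (M : Ideal (integralClosure ℤ ℂ)) (N : Subgroup G) (χ : G → ℂ) (Z : Subgroup G) (z : G) : Prop where
  ex : ∀ L, L2 p e N z L → ∀ ψ ∈ GN p e m M N χ L Z, ∃ θ₀ ∈ GN p e m M N χ (N ⊓ cz Z) Z, ψ ∈ FF p e m t M N χ Z L θ₀
  ct : ∀ L, L2 p e N z L → ∀ θ₀ ∈ GN p e m M N χ (N ⊓ cz Z) Z,
    Nat.card (N ⊓ cz Z : Subgroup G) * (FF p e m t M N χ Z L θ₀).ncard = Nat.card {h : G // h ∈ N ⊓ nz Z ∧ cjF h θ₀ = θ₀}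
  df : ∀ θ₀ ∈ GN p e m M N χ (N ⊓ cz Z) Z, ∀ ψ ∈ FF p e m t M N χ Z N θ₀, ∀ ψ₁ ∈ FF p e m t M N χ Z (N ⊓ nz (Eg p e z)) θ₀, ∀ d : ℤ,
    (Defect p N ψ d ↔ Defect p (N ⊓ nz (Eg p e z)) ψ₁ d)
  ou : ∀ L, N ⊓ cz Z ≤ L → L ≤ N → ∀ ψ ∈ IrrOn L, ψ ∉ GN p e m M N χ L Z → ∀ θ ∈ GN p e m M N χ (N ⊓ cz Z) Z, ∀ ν : Z →* ℂˣ,
    mt (N ⊓ cz Z) ψ θ = mt (N ⊓ cz Z) ψ (st Z t ν θ)
  sm : ∀ θ ∈ GN p e m M N χ (N ⊓ cz Z) Z, ∀ ν : Z →* ℂˣ, st Z t ν θ ∈ GN p e m M N χ (N ⊓ cz Z) Z ∧ SB M (N ⊓ cz Z) (st Z t ν θ) θ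
  sz : ∀ θ ∈ GN p e m M N χ (N ⊓ cz Z) Z, Finite {θ' : G → ℂ // orb Z t θ θ'} ∧ p ^ 3 ≤ Nat.card {θ' : G → ℂ // orb Z t θ θ'}
  fx : ∀ θ ∈ GN p e m M N χ (N ⊓ cz Z) Z, ∀ n ∈ N ⊓ nz Z, SB M (N ⊓ cz Z) (cjF n θ) θ → ∀ k : ℕ, n ^ p ^ k ∈ cz Z → n ∈ cz Z

/-- The standing hypothesis with an element `w` which stabilises the block. -/
structure HW (p e : ℕ) (m : Pm) (t : ℕ) (M : Ideal (integralClosure ℤ ℂ)) (N : Subgroup G) (χ : G → ℂ) (Z : Subgroup G) (z x w : G) : Prop where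
  zn : ZN p e m t M N χ Z z x
  ww : WW p N Z w
  bs : SB M N (cjF w χ) χ

end

/-! ## 1. Manual rows -/

/-- **NTK** (short; from ZB.ZTK, NAB.NTK, ZE1 (of ZB)). Transfer of unit classes to the type `N`. Proof: all fields except `df` by NAB.NTK with the trick of NUB (`cd` holds for `m' = pp p (Cz H (z x))`; NAB.NTK is an equivalence for every `m'`; take the same `m'` for both directions). `df`: ZTK (1) (`Q ≤ N` by `DefL.le`; every subgroup of the type `N` is `Q.subgroupOf N`, `Q = Q'.map N.subtype`)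
and `KY p e m (Q.subgroupOf N) ↔ KY p e m Q` for `Q ≤ N`: as ZTK (2) (COPY its proof, `helper40/ZB/ZTK.lean`; `orderOf`, powers: coercion). -/
def NTK_stmt : Prop :=
  ∀ (p e : ℕ) (m : Pm) (M : Ideal (integralClosure ℤ ℂ)), p.Prime → ∀ (G : Type) [Group G] [Finite G] (N H : Subgroup G), H ≤ N →
    ∀ η : G → ℂ, (∀ x, x ∉ N → η x = 0) → ∀ z x : N, Ucl p e m M (H.subgroupOf N) (rN N η) z x ↔ Ucl p e m M H η (z : G) (x : G)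

/-- **NLR** (short; from CNTL; model NLQ, `helper23/ZD/NLQ.lean`). Relative locality. Proof: `Z ≤ N ⊓ cz Z ≤ L`, `L ⊓ cz Z = N ⊓ cz Z`; CNTL (`L := L`, `R := Z`): `l ∈ L`, `l Z l⁻¹ ≤ Q`; `c ∈ N ⊓ cz Q`: `l⁻¹ c l ∈ N ⊓ cz Z ≤ L`, so `c ∈ L`. -/
def NLR_stmt : Prop :=
  ∀ (p : ℕ) (M : Ideal (integralClosure ℤ ℂ)), Setup p M → ∀ (G : Type) [Group G] [Finite G] (N L Z : Subgroup G), IsPGroup p Z → Z ≤ cz Z → Z ≤ N →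
    N ⊓ cz Z ≤ L → L ≤ N → ∀ θ ∈ IrrOn (N ⊓ cz Z), ∀ ψ ∈ IrrOn L, SB M L θ ψ → ∀ (Q : Subgroup G) (y : G), DefL p M L ψ Q y → N ⊓ cz Q ≤ L

/-- **BEQ** (short to medium; from NUD, YE1, NDG, ZB.ZHE, ZB.ZE1). `BE = BQ`. Proof: `K = L ⊓ nz E'`. `⊆`: `η` with `(z', x')`, `Eg z' = E'`: NUD (2): `DefL p M K η D' _`, `z' ∈ D'`, `KY D'`: `KZ D'` and `EQ D' = Eg z' = E'` (YE1). `⊇`: `η` with `(Q, y)`, `KZ Q`, `EQ Q = E'`; `L ⊓ cz Q ≤ L ⊓ nz E'` (ZE1 (4)). NUD (2) for `ψ`: `DefL p M L ψ D x`, `KY D`. ZHE: `l ∈ L`, `cjS l Q ≤ D`, `D ⊓ cz (cjS l Q) ≤ cjS l Q`: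
`KY (cjS l Q)`, so `KY Q` (YE1 (2), (3)). YE1 (5): `z' ∈ Q` central in `Q`, `orderOf z' = p ^ e`; NDG: `cc η (cls K (z' y))` is not `InM`: `Ucl p e m M K η z' y` (`PEl p z'`: `z' ∈ Q`; `y` commutes with `Q`, `PReg p y`, `y ∈ K`: fields of `DefL`), `Eg z' = EQ Q = E'` (YE1 (4)). -/
def BEQ_stmt : Prop :=
  ∀ (p e : ℕ) (m : Pm) (M : Ideal (integralClosure ℤ ℂ)), Setup p M → ∀ (G : Type) [Group G] [Finite G] (L : Subgroup G),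
    ∀ ψ ∈ IrrOn L, ∀ z x : G, Ucl p e m M L ψ z x → ∀ E' : Subgroup G,
    BE p e m M L (L ⊓ nz E') E' ψ = BQ p m M L (L ⊓ nz E') E' ψ

/-- **NXU** (short; from BEQ, NUD, YE1, ZB.ZXU). Existence of the block of `L ⊓ nz E`. Proof: NUD (2): `DefL p M L ψ D y`, `z ∈ D`, `KY D`, `EQ D = Eg z` (YE1 (4)); ZXU; BEQ. -/
def NXU_stmt : Prop :=
  ∀ (p e : ℕ) (m : Pm) (M : Ideal (integralClosure ℤ ℂ)), Setup p M → ∀ (G : Type) [Group G] [Finite G] (L : Subgroup G),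
    ∀ ψ ∈ IrrOn L, ∀ z x : G, Ucl p e m M L ψ z x → ∃ η : G → ℂ, η ∈ BE p e m M L (L ⊓ nz (Eg p e z)) (Eg p e z) ψ

/-- **NQU** (short; from BEQ, NUD, YE1, ZB.ZQU). Uniqueness. -/
def NQU_stmt : Prop :=
  ∀ (p e : ℕ) (m : Pm) (M : Ideal (integralClosure ℤ ℂ)), Setup p M → ∀ (G : Type) [Group G] [Finite G] (L E : Subgroup G),
    ∀ ψ ∈ IrrOn L, ∀ z x : G, Ucl p e m M L ψ z x → ∀ η ∈ BE p e m M L (L ⊓ nz E) E ψ, BE p e m M L (L ⊓ nz E) E ψ = Bl M (L ⊓ nz E) η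

/-- **YUL** (medium; from NE.YUL (`Pool.Agent.NE.YUL_stmt`), YDF, YIX, DEX, DGL, DUN, SYL, YE1, ZB.ZUB). A unit class goes up from `K` to `K' = Nw K w`, index prime to `p`, if the block is `K'`-stable. Proof: YIX: `|K'| = |K| k`, `p ∤ k`. All fields except `df`: `Pool.Agent.NE.YUL_stmt` with the trick of NUB (large `m'`). `df`: `(D, y)` the defect group of `φ` in `KY`. (a) `Pool.Agent.NE.YUL_stmt` for `e = 0`, `z = 1`, `x = y` (`cls K (1 * y)`, `orderOf 1 = p ^ 0`,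
`cd` for a large `m'`): `cc φ' (cls K' (1 * y))` is not `InM`. DEX: `DefL p M K' φ' D' y'`; `min` of `DefL`: `|D'| ≤ pp p (Cz K' y)`. (b) `pp p (Cz K' y) = pp p (Cz K y) = |D|`: `Cz K' y ⊓ K = Cz K y`, and a Sylow `p`-subgroup of `Cz K' y` is contained in `K` (its elements are `p`-elements of `K'`). (c) DGL for `K`, `φ`, `D`: `θ ∈ IrrOn (K ⊓ cz D)`, `SB M K θ φ`; YDF (`C := K`, `s := w`, `R := D`): `l ∈ K'` with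
`l⁻¹ D l ≤ D'`. So `D' = cjS l⁻¹ D` (orders), `KY D'` (YE1 (3)). -/
def YUL_stmt : Prop :=
  ∀ (p e : ℕ) (m : Pm) (M : Ideal (integralClosure ℤ ℂ)), Setup p M → ∀ (G : Type) [Group G] [Finite G] (K : Subgroup G) (w : G), w ∈ nz K →
    (∀ y ∈ Nw K w, PEl p y → y ∈ K) → ∀ φ' ∈ IrrOn (Nw K w), ∀ φ ∈ IrrOn K, mt K φ' φ ≠ 0 →
    (∀ g ∈ Nw K w, SB M K (cjF g φ) φ) → ∀ z x : G, Ucl p e m M K φ z x → Ucl p e m M (Nw K w) φ' z x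

/-! ## 2. Rows ported by script (YUX, YUP by hand: YUX with NUH for `C' = N' ⊓ cz Z ≤ N'` (local: NLR), YUP: `χ'` from NUX-type EXB, YCV for `C' := L'`, YUL for `K = N`: `Ucl N' χ' z x`) -/

/-- **YGA** (PORT by script of `NE.YGA`, see `helper37/NE/SpecA`). -/
def YGA_stmt : Prop :=
  ∀ (p e : ℕ) (m : Pm) (t : ℕ) (M : Ideal (integralClosure ℤ ℂ)), Setup p M → ∀ (G : Type) [Group G] [Finite G] (χ : G → ℂ) (Z : Subgroup G) (z x : G),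
    ZN p e m t M (⊤ : Subgroup G) χ Z z x → ZD p e m t M χ Z z x ∧
    (∀ L : Subgroup G, GN p e m M (⊤ : Subgroup G) χ L Z = GS p e m M χ L Z) ∧
    (⊤ ⊓ cz Z : Subgroup G) = cz Z ∧ (⊤ ⊓ nz Z : Subgroup G) = nz Z ∧ (⊤ ⊓ nz (Eg p e z) : Subgroup G) = nz (Eg p e z) ∧
    GN p e m M (⊤ : Subgroup G) χ (⊤ : Subgroup G) Z = Bl M (⊤ : Subgroup G) χ

/-- **YUE** (PORT by script of `NE.YUE`, see `helper37/NE/SpecA`). -/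
def YUE_stmt : Prop :=
  ∀ (p e : ℕ) (m : Pm) (t : ℕ) (M : Ideal (integralClosure ℤ ℂ)), Setup p M → ∀ (G : Type) [Group G] [Finite G] (χ : G → ℂ) (Z : Subgroup G) (z₁ x₁ : G),
    ZD p e m t M χ Z z₁ x₁ → ∃ z x : G, ZD p e m t M χ Z z x ∧ Eg p e z = Eg p e z₁ ∧
      (∀ ψ ∈ GS p e m M χ (⊤ : Subgroup G) Z, Ucl p e m M (⊤ : Subgroup G) ψ z x) ∧
      (∀ ψ ∈ GS p e m M χ (nz (Eg p e z₁)) Z, Ucl p e m M (nz (Eg p e z₁)) ψ z x) ∧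
      GS p e m M χ (⊤ : Subgroup G) Z = Bl M (⊤ : Subgroup G) χ ∧
      GS p e m M χ (nz (Eg p e z₁)) Z = BE p e m M (⊤ : Subgroup G) (nz (Eg p e z₁)) (Eg p e z₁) χ ∧
      Subgroup.centralizer ({z * x} : Set G) ≤ cz Z ∧ cz Z ≤ nz Z ∧ nz Z ≤ nz (Eg p e z₁)

open Classical in
/-- **YGK** (PORT by script of `NE.YGK`, see `helper37/NE/SpecA`). -/
def YGK_stmt : Prop :=
  ∀ (p e : ℕ) (m : Pm) (t : ℕ) (M : Ideal (integralClosure ℤ ℂ)), Setup p M → ∀ (G : Type) [Group G] [Finite G] (χ : G → ℂ) (Z : Subgroup G) (z x : G),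
    ZD p e m t M χ Z z x → (∀ (Γ : Type) [Group Γ] [Finite Γ], MZc p m M Γ) → ∀ L : Subgroup G, (L = ⊤ ∨ L = nz (Eg p e z)) →
    (∀ ψ ∈ GS p e m M χ L Z, ∃ θ₀ ∈ GS p e m M χ (cz Z) Z, ∃ ε : ℂ, (ε = 1 ∨ ε = -1) ∧ ∀ θ ∈ GS p e m M χ (cz Z) Z, ∀ ν : Z →* ℂˣ,
      mt (cz Z) ψ θ - mt (cz Z) ψ (st Z t ν θ) = ε * (iH ⊤ Z θ₀ θ - iH ⊤ Z θ₀ (st Z t ν θ))) ∧
    ∀ θ₀ ∈ GS p e m M χ (cz Z) Z, Nat.card (cz Z : Subgroup G) *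
      {ψ : G → ℂ | ψ ∈ GS p e m M χ L Z ∧ ∃ ε : ℂ, (ε = 1 ∨ ε = -1) ∧ ∀ θ ∈ GS p e m M χ (cz Z) Z, ∀ ν : Z →* ℂˣ,
        mt (cz Z) ψ θ - mt (cz Z) ψ (st Z t ν θ) = ε * (iH ⊤ Z θ₀ θ - iH ⊤ Z θ₀ (st Z t ν θ))}.ncard = Nat.card {h : G // h ∈ nz Z ∧ cjF h θ₀ = θ₀}

open Classical in
/-- **YGD** (PORT by script of `NE.YGD`, see `helper37/NE/SpecA`). -/
def YGD_stmt : Prop :=
  ∀ (p e : ℕ) (m : Pm) (t : ℕ) (M : Ideal (integralClosure ℤ ℂ)), Setup p M → ∀ (G : Type) [Group G] [Finite G] (χ : G → ℂ) (Z : Subgroup G) (z x : G),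
    ZD p e m t M χ Z z x → ∀ ψ ∈ GS p e m M χ (⊤ : Subgroup G) Z, ∀ ψ₁ ∈ GS p e m M χ (nz (Eg p e z)) Z, ∀ (f : (G → ℂ) → ℂ) (ε ε₁ : ℂ),
    (ε = 1 ∨ ε = -1) → (ε₁ = 1 ∨ ε₁ = -1) →
    (∀ θ ∈ GS p e m M χ (cz Z) Z, ∀ ν : Z →* ℂˣ, mt (cz Z) ψ θ - mt (cz Z) ψ (st Z t ν θ) = ε * (f θ - f (st Z t ν θ))) →
    (∀ θ ∈ GS p e m M χ (cz Z) Z, ∀ ν : Z →* ℂˣ, mt (cz Z) ψ₁ θ - mt (cz Z) ψ₁ (st Z t ν θ) = ε₁ * (f θ - f (st Z t ν θ))) →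
    ∀ d : ℤ, (Defect p (⊤ : Subgroup G) ψ d ↔ Defect p (nz (Eg p e z)) ψ₁ d)

/-- **YST** (PORT by script of `NE.YST`, see `helper37/NE/SpecA`). -/
def YST_stmt : Prop :=
  ∀ (p e : ℕ) (m : Pm) (t : ℕ) (M : Ideal (integralClosure ℤ ℂ)), Setup p M → ∀ (G : Type) [Group G] [Finite G] (χ : G → ℂ) (Z : Subgroup G) (z x : G),
    ZN p e m t M (⊤ : Subgroup G) χ Z z x → STR p e m t M (⊤ : Subgroup G) χ Z z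

/-- **YTR** (PORT by script of `NE.YTR`, see `helper37/NE/SpecA`). -/
def YTR_stmt : Prop :=
  ∀ (p e : ℕ) (m : Pm) (t : ℕ) (M : Ideal (integralClosure ℤ ℂ)), Setup p M → ∀ (G : Type) [Group G] [Finite G] (N Z : Subgroup G) (hZN : Z ≤ N),
    (Tx p e t G → Tx p e t N) ∧
    (∀ z : N, Zg p e m.a z = (Zg p e m.a (z : G)).subgroupOf N) ∧
    (∀ (ν : Z →* ℂˣ) (θ : G → ℂ), st (Z.subgroupOf N) t (ν.comp (Subgroup.subgroupOfEquivOfLe hZN).toMonoidHom) (rN N θ) = rN N (st Z t ν θ)) ∧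
    (cz (Z.subgroupOf N) = (N ⊓ cz Z).subgroupOf N ∧ nz (Z.subgroupOf N) = (N ⊓ nz Z).subgroupOf N) ∧
    (∀ χ : G → ℂ, (∀ y, y ∉ N → χ y = 0) → ∀ L ≤ N, ∀ ψ : G → ℂ, (∀ y, y ∉ N → ψ y = 0) →
      (ψ ∈ GN p e m M N χ L Z ↔ rN N ψ ∈ GN p e m M (⊤ : Subgroup N) (rN N χ) (L.subgroupOf N) (Z.subgroupOf N))) ∧
    (∀ L ≤ N, ∀ φ ψ : G → ℂ, mt (L.subgroupOf N) (rN N φ) (rN N ψ) = mt L φ ψ) ∧
    (∀ (n : N) (ψ : G → ℂ), cjF n (rN N ψ) = rN N (cjF (n : G) ψ)) ∧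
    (∀ L ≤ N, ∀ (ψ : G → ℂ) (d : ℤ), (Defect p (L.subgroupOf N) (rN N ψ) d ↔ Defect p L ψ d)) ∧
    (∀ L ≤ N, ∀ ψ' ∈ IrrOn (L.subgroupOf N), ∃ ψ ∈ IrrOn L, rN N ψ = ψ')

/-- **YSN** (PORT by script of `NE.YSN`, see `helper37/NE/SpecA`). -/
def YSN_stmt : Prop :=
  ∀ (p e : ℕ) (m : Pm) (t : ℕ) (M : Ideal (integralClosure ℤ ℂ)), Setup p M → ∀ (G : Type) [Group G] [Finite G] (N : Subgroup G) (χ : G → ℂ) (Z : Subgroup G) (z x : G),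
    ZN p e m t M N χ Z z x → STR p e m t M N χ Z z

/-- **YBE** (PORT by script of `NE.YBE`, see `helper37/NE/SpecB`). -/
def YBE_stmt : Prop :=
  ∀ (p e : ℕ) (m : Pm) (t : ℕ) (M : Ideal (integralClosure ℤ ℂ)), Setup p M → ∀ (G : Type) [Group G] [Finite G] (N : Subgroup G) (χ : G → ℂ) (Z : Subgroup G) (z x : G),
    ZN p e m t M N χ Z z x →
    GN p e m M N χ N Z = Bl M N χ ∧
    GN p e m M N χ (N ⊓ nz (Eg p e z)) Z = BE p e m M N (N ⊓ nz (Eg p e z)) (Eg p e z) χ ∧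
    (∀ η ∈ GN p e m M N χ (N ⊓ nz (Eg p e z)) Z, ∀ η' ∈ GN p e m M N χ (N ⊓ nz (Eg p e z)) Z, SB M (N ⊓ nz (Eg p e z)) η η') ∧
    Z ≤ N ∧ N ⊓ cz Z ≤ N ⊓ nz Z ∧ N ⊓ nz Z ≤ N ⊓ nz (Eg p e z) ∧ nz Z ≤ nz (Eg p e z) ∧ IsPGroup p Z

/-- **YSW** (PORT by script of `NE.YSW`, see `helper37/NE/SpecB`). -/
def YSW_stmt : Prop :=
  ∀ (p e : ℕ) (m : Pm) (t : ℕ) (M : Ideal (integralClosure ℤ ℂ)), Setup p M → ∀ (G : Type) [Group G] [Finite G] (N : Subgroup G) (χ : G → ℂ) (Z : Subgroup G) (z x : G),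
    ZN p e m t M N χ Z z x → ∀ w : G, w ∈ nz N → w ∈ nz Z → SB M N (cjF w χ) χ →
    (∀ L, L2 p e N z L → w ∈ nz L ∧ N ⊓ nz Z ≤ L ∧ L ≤ N) ∧
    (∀ L, w ∈ nz L → ∀ ψ ∈ GN p e m M N χ L Z, cjF w ψ ∈ GN p e m M N χ L Z) ∧
    (∀ L, w ∈ nz L → N ⊓ cz Z ≤ L → ∀ ψ ∈ GN p e m M N χ L Z, ∀ (θ₀ : G → ℂ) (ε : ℂ), Rw p e m t M N χ Z ψ θ₀ ε → Rw p e m t M N χ Z (cjF w ψ) (cjF w θ₀) ε) ∧
    (∀ h ∈ N ⊓ nz Z, ∀ θ₀ : G → ℂ, iH N Z (cjF h θ₀) = iH N Z θ₀ ∧ ∀ (ψ : G → ℂ) (ε : ℂ), Rw p e m t M N χ Z ψ (cjF h θ₀) ε ↔ Rw p e m t M N χ Z ψ θ₀ ε) ∧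
    (∀ g ∈ Nw N w, SB M N (cjF g χ) χ) ∧ w ∈ nz (N ⊓ cz Z) ∧ w ∈ nz (N ⊓ nz Z) ∧ w ∈ nz (Eg p e z)

/-- **YUX** (MANUAL port of `NE.YUX`, see `helper37/NE/SpecB`). -/
def YUX_stmt : Prop :=
  ∀ (p e : ℕ) (m : Pm) (t : ℕ) (M : Ideal (integralClosure ℤ ℂ)), Setup p M → ∀ (G : Type) [Group G] [Finite G] (N : Subgroup G) (χ : G → ℂ) (Z : Subgroup G) (z x w : G),
    HW p e m t M N χ Z z x w → ∀ θ ∈ GN p e m M N χ (N ⊓ cz Z) Z, ∀ θ' ∈ IrrOn (Nw N w ⊓ cz Z), mt (N ⊓ cz Z) θ' θ ≠ 0 →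
    ∃ χ'' : G → ℂ, ZN p e m t M (Nw N w) χ'' Z z x ∧ θ' ∈ GN p e m M (Nw N w) χ'' (Nw N w ⊓ cz Z) Z

/-- **YUP** (MANUAL port of `NE.YUP`, see `helper37/NE/SpecB`). -/
def YUP_stmt : Prop :=
  ∀ (p e : ℕ) (m : Pm) (t : ℕ) (M : Ideal (integralClosure ℤ ℂ)), Setup p M → ∀ (G : Type) [Group G] [Finite G] (N : Subgroup G) (χ : G → ℂ) (Z : Subgroup G) (z x w : G),
    HW p e m t M N χ Z z x w → ∀ L, L2 p e N z L → ∀ ψ ∈ GN p e m M N χ L Z, ∀ ψ' ∈ IrrOn (Nw L w), mt L ψ' ψ ≠ 0 →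
    ∃ (χ' : G → ℂ) (z' x' : G), ZN p e m t M (Nw N w) χ' Z z' x' ∧ L2 p e (Nw N w) z' (Nw L w) ∧ ψ' ∈ GN p e m M (Nw N w) χ' (Nw L w) Z

/-- **YFY** (PORT by script of `NE.YFY`, see `helper37/NE/SpecB`). -/
def YFY_stmt : Prop :=
  ∀ (p e : ℕ) (m : Pm) (t : ℕ) (M : Ideal (integralClosure ℤ ℂ)), Setup p M → ∀ (G : Type) [Group G] [Finite G] (N : Subgroup G) (χ : G → ℂ) (Z : Subgroup G) (z x : G),
    ZN p e m t M N χ Z z x → STR p e m t M N χ Z z → ∀ w : G, WW p N Z w → ∀ θ ∈ GN p e m M N χ (N ⊓ cz Z) Z,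
    {θ₁ : G → ℂ | orb Z t θ θ₁ ∧ ∃ a ∈ Nw N w ⊓ nz Z, θ₁ = cjF a θ}.Finite ∧
    {θ₁ : G → ℂ | orb Z t θ θ₁ ∧ ∃ a ∈ Nw N w ⊓ nz Z, θ₁ = cjF a θ}.ncard ≤ p - 1

/-- **YAV** (PORT by script of `NE.YAV`, see `helper37/NE/SpecB`). -/
def YAV_stmt : Prop :=
  ∀ (p e : ℕ) (m : Pm) (t : ℕ) (M : Ideal (integralClosure ℤ ℂ)), Setup p M → ∀ (G : Type) [Group G] [Finite G] (N : Subgroup G) (χ : G → ℂ) (Z : Subgroup G) (z x : G),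
    ZN p e m t M N χ Z z x → STR p e m t M N χ Z z → ∀ w : G, WW p N Z w → ∀ θ₀ ∈ GN p e m M N χ (N ⊓ cz Z) Z, ∀ A B : Set (G → ℂ),
    (∀ θ₁ ∈ A, ∀ θ₂ ∈ A, orb Z t θ₀ θ₁ → orb Z t θ₀ θ₂ → ∃ a ∈ Nw N w ⊓ nz Z, θ₂ = cjF a θ₁) →
    (∀ θ₁ ∈ B, ∀ θ₂ ∈ B, orb Z t θ₀ θ₁ → orb Z t θ₀ θ₂ → ∃ a ∈ Nw N w ⊓ nz Z, θ₂ = cjF a θ₁) →
    ∃ ν : Z →* ℂˣ, st Z t ν θ₀ ∉ A ∧ st Z t ν θ₀ ∉ B

/-- **YHC** (PORT by script of `NE.YHC`, see `helper37/NE/SpecB`). -/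
def YHC_stmt : Prop :=
  ∀ (p e : ℕ) (m : Pm) (t : ℕ) (M : Ideal (integralClosure ℤ ℂ)), Setup p M → ∀ (G : Type) [Group G] [Finite G] (N : Subgroup G) (χ : G → ℂ) (Z : Subgroup G) (z x : G),
    ZN p e m t M N χ Z z x → STR p e m t M N χ Z z → ∀ L, L2 p e N z L → ∀ θ₀ ∈ GN p e m M N χ (N ⊓ cz Z) Z,
    (FF p e m t M N χ Z L θ₀).Finite ∧ (FF p e m t M N χ Z L θ₀).ncard ≠ 0 ∧ (FF p e m t M N χ Z L θ₀).ncard ≤ p - 1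

/-- **YFF** (PORT by script of `NE.YFF`, see `helper37/NE/SpecB`). -/
def YFF_stmt : Prop :=
  ∀ (p e : ℕ) (m : Pm) (t : ℕ) (M : Ideal (integralClosure ℤ ℂ)), Setup p M → ∀ (G : Type) [Group G] [Finite G] (N : Subgroup G) (χ : G → ℂ) (Z : Subgroup G) (z x : G),
    ZN p e m t M N χ Z z x → STR p e m t M N χ Z z → ∀ L : Subgroup G, ∀ θ₀ ∈ GN p e m M N χ (N ⊓ cz Z) Z, ∀ θ₁ ∈ GN p e m M N χ (N ⊓ cz Z) Z,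
    ∀ ψ ∈ FF p e m t M N χ Z L θ₀, ψ ∈ FF p e m t M N χ Z L θ₁ → ∃ h ∈ N ⊓ nz Z, cjF h θ₁ = θ₀

open Classical in
/-- **YRW** (PORT by script of `NE.YRW`, see `helper37/NE/SpecB`). -/
def YRW_stmt : Prop :=
  ∀ (p e : ℕ) (m : Pm) (t : ℕ) (M : Ideal (integralClosure ℤ ℂ)), Setup p M → ∀ (G : Type) [Group G] [Finite G] (N : Subgroup G) (χ : G → ℂ) (Z : Subgroup G) (z x w : G),
    HW p e m t M N χ Z z x w → ∀ L, L2 p e N z L → ∀ ψ ∈ GN p e m M N χ L Z, ∀ ψ' ∈ IrrOn (Nw L w), mt L ψ' ψ ≠ 0 →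
    ∃ (θ₀' : G → ℂ) (ε' : ℂ), θ₀' ∈ IrrOn (Nw N w ⊓ cz Z) ∧ (ε' = 1 ∨ ε' = -1) ∧
      ∀ θ ∈ GN p e m M N χ (N ⊓ cz Z) Z, ∀ θ' ∈ IrrOn (Nw N w ⊓ cz Z), mt (N ⊓ cz Z) θ' θ ≠ 0 → ∀ ν : Z →* ℂˣ,
        st Z t ν θ' ∈ IrrOn (Nw N w ⊓ cz Z) ∧
        mt (Nw N w ⊓ cz Z) ψ' θ' - mt (Nw N w ⊓ cz Z) ψ' (st Z t ν θ') =
          ε' * ((if ∃ a ∈ Nw N w ⊓ nz Z, cjF a θ₀' = θ' then (1 : ℂ) else 0) - (if ∃ a ∈ Nw N w ⊓ nz Z, cjF a θ₀' = st Z t ν θ' then 1 else 0))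

/-- **YEA** (PORT by script of `NE.YEA`, see `helper37/NE/SpecB`). -/
def YEA_stmt : Prop :=
  ∀ (p e : ℕ) (m : Pm) (t : ℕ) (M : Ideal (integralClosure ℤ ℂ)), Setup p M → ∀ (G : Type) [Group G] [Finite G] (N : Subgroup G) (χ : G → ℂ) (Z : Subgroup G) (z x w : G),
    HW p e m t M N χ Z z x w → STR p e m t M N χ Z z → ∀ L, L2 p e N z L → ∀ θ₀ ∈ GN p e m M N χ (N ⊓ cz Z) Z, (∃ h ∈ N ⊓ nz Z, cjF w θ₀ = cjF h θ₀) →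
    ∀ ψ ∈ GN p e m M N χ L Z, ∀ ε : ℂ, Rw p e m t M N χ Z ψ θ₀ ε →
    ∃ (θ₀' : G → ℂ) (ε' : ℂ), θ₀' ∈ IrrOn (Nw N w ⊓ cz Z) ∧ (ε' = 1 ∨ ε' = -1) ∧ ∀ θ ∈ GN p e m M N χ (N ⊓ cz Z) Z, ∀ ν : Z →* ℂˣ,
      ({φ : G → ℂ | ∃ k : ℕ, φ = cjF (w ^ k) ψ}.ncard : ℂ) * ε * (iH N Z θ₀ θ - iH N Z θ₀ (st Z t ν θ)) =
        ε' * ((rN' N (Nw N w) Z θ θ₀' : ℂ) - (rN' N (Nw N w) Z (st Z t ν θ) θ₀' : ℂ))

/-- **YEB** (PORT by script of `NE.YEB`, see `helper37/NE/SpecB`). -/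
def YEB_stmt : Prop :=
  ∀ (p e : ℕ) (m : Pm) (t : ℕ) (M : Ideal (integralClosure ℤ ℂ)), Setup p M → ∀ (G : Type) [Group G] [Finite G] (N : Subgroup G) (χ : G → ℂ) (Z : Subgroup G) (z x w : G),
    HW p e m t M N χ Z z x w → STR p e m t M N χ Z z → ∀ L, L2 p e N z L → ∀ θ₀ ∈ GN p e m M N χ (N ⊓ cz Z) Z, (∃ h ∈ N ⊓ nz Z, cjF w θ₀ = cjF h θ₀) →
    ∀ ψ ∈ FF p e m t M N χ Z L θ₀, ∀ θ' ∈ IrrOn (Nw N w ⊓ cz Z), mt (N ⊓ cz Z) θ' θ₀ ≠ 0 →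
    {φ : G → ℂ | ∃ k : ℕ, φ = cjF (w ^ k) ψ}.ncard = rN' N (Nw N w) Z θ₀ θ'

/-- **YPF** (PORT by script of `NE.YPF`, see `helper37/NE/SpecB`). -/
def YPF_stmt : Prop :=
  ∀ (p e : ℕ) (m : Pm) (t : ℕ) (M : Ideal (integralClosure ℤ ℂ)), Setup p M → ∀ (G : Type) [Group G] [Finite G] (N : Subgroup G) (χ : G → ℂ) (Z : Subgroup G) (z x : G),
    ZN p e m t M N χ Z z x → STR p e m t M N χ Z z → ∀ w : G, PEl p w → w ∈ nz N → w ∈ nz Z → SB M N (cjF w χ) χ → ∀ L, L2 p e N z L →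
    ∀ θ₀ ∈ GN p e m M N χ (N ⊓ cz Z) Z, (∃ h ∈ N ⊓ nz Z, cjF w θ₀ = cjF h θ₀) → ∀ ψ ∈ FF p e m t M N χ Z L θ₀, cjF w ψ = ψ

/-- **YWF** (PORT by script of `NE.YWF`, see `helper37/NE/SpecB`). -/
def YWF_stmt : Prop :=
  ∀ (p e : ℕ) (m : Pm) (t : ℕ) (M : Ideal (integralClosure ℤ ℂ)), Setup p M → ∀ (G : Type) [Group G] [Finite G] (N : Subgroup G) (χ : G → ℂ) (Z : Subgroup G) (z x : G),
    ZN p e m t M N χ Z z x → ∀ w : G, w ∈ nz N → w ∈ nz Z → SB M N (cjF w χ) χ → ∀ θ₀ ∈ GN p e m M N χ (N ⊓ cz Z) Z,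
    ∀ ψ ∈ FF p e m t M N χ Z N θ₀, ∀ ψ₁ ∈ FF p e m t M N χ Z (N ⊓ nz (Eg p e z)) θ₀, (cjF w ψ = ψ ↔ cjF w ψ₁ = ψ₁)

/-- **YNC** (PORT by script of `NE.YNC`, see `helper37/NE/SpecB`). -/
def YNC_stmt : Prop :=
  ∀ (p e : ℕ) (m : Pm) (M : Ideal (integralClosure ℤ ℂ)), Setup p M → (∀ (Γ : Type) [Group Γ] [Finite Γ], MZc p m M Γ) → 2 * m.a + 5 ≤ e → ∀ (G : Type) [Group G] [Finite G] (N : Subgroup G),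
    ∀ χ ∈ IrrOn N, ∀ z x : G, Ucl p e m M N χ z x → ∀ Δ : Subgroup G, N ≤ Δ → Δ ≤ nz N → ∀ d : ℤ,
    {ψ : G → ℂ | ψ ∈ Bl M N χ ∧ Defect p N ψ d ∧ ∀ δ ∈ Δ, cjF δ ψ = ψ}.ncard =
      {η : G → ℂ | η ∈ BE p e m M N (N ⊓ nz (Eg p e z)) (Eg p e z) χ ∧ Defect p (N ⊓ nz (Eg p e z)) η d ∧
        (∀ δ ∈ Δ ⊓ nz (Eg p e z), cjF δ η = η) ∧ Δ ≤ N ⊔ (Δ ⊓ nz (Eg p e z))}.ncard

end Pool.Agent.NE.NY
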