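import Mathlib
import Pool.Agent.helper7.ZE.Spec
import Pool.Agent.helper37.NE.SpecC

/-!
# MP_baa4d7_al, THEOREM ZE, part C: chains, the toggle, extensions, the final statement

PORT of `helper37/NE/SpecC` (`hB`, `YCB`, `YR0` and `YTG` are those of NE). The subgroups which contribute must be LOCAL in `G₀` (NUH of ZD): YTL.

RULES FOR ROWS. File `Pool/Agent/<seat>/ZE/XXX.lean` with `import Pool.Agent.helper7.ZE.SpecC`, namespace `Pool.Agent.NE.NY`, the five open lines of `helper7/ZE/Spec.lean`; the rest as in `helper7/ZE/Spec.lean`.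
-/

set_option autoImplicit false

namespace Pool.Agent.NE.NY

open Pool.Agent.helper58.DC Pool.Agent.DI Pool.Agent.GR Pool.Agent.OB Pool.Agent.DR Pool.Agent.FI Pool.Agent.FI3 Pool.Agent.FI4 Pool.Agent.FI4I Pool.Agent.LE Pool.Agent.L5
open Pool.Agent.NAB hiding Ucl BE NUB_stmt NUD_stmt NUH_stmt NUE_stmt NUF_stmt NTK_stmt NXU_stmt NQU_stmt
open Pool.Agent.ND hiding GS ZD XX PP ZGD_stmt ZNU_stmt GBC_stmt GUC_stmt GSP_stmt GIM_stmt GST_stmt GOS_stmt GS4_stmt GFX_stmt GAC_stmt GGR_stmt GOU_stmt GSY_stmt GVF_stmt GNV_stmt GDF_stmt GC1_stmt GEV_stmt GQQ_stmt GKQ_stmt TDC_stmt GKE_stmt GKD_stmt TDI_stmt TDL_stmt TDF_stmt NDQ_stmt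
open Pool.Agent.ND.NY
open Pool.Agent.ZB (Pm Om KZ EQ BQ lQ MZc BDK)

section

variable {G : Type} [Group G]

open Classical in
/-- As `hB` for the set `BE` of the subgroup `K ⊓ G₀` (an INTEGER). -/
noncomputable def hE (p e : ℕ) (m : Pm) (M : Ideal (integralClosure ℤ ℂ)) (G₀ : Subgroup G) (χ₀ : G → ℂ) (d : ℤ) (E' K : Subgroup G) : ℤ :=
  if K ⊔ G₀ = ⊤ then (Nat.card (K ⊓ G₀ : Subgroup G) : ℤ) *
    ({η : G → ℂ | η ∈ BE p e m M G₀ (K ⊓ G₀) E' χ₀ ∧ Defect p (K ⊓ G₀) η d ∧ ∀ κ ∈ K, cjF κ η = η}.ncard : ℤ) else 0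

end

/-- **YTD** (PORT by script of `NE.YTD`, `helper23/NE/YTD.lean`). -/
def YTD_stmt : Prop :=
  ∀ (p e : ℕ) (m : Pm) (M : Ideal (integralClosure ℤ ℂ)), Setup p M → ∀ (G : Type) [Group G] [Finite G] (L : Subgroup G),
    ∀ ψ ∈ IrrOn L, ∀ z x : G, Ucl p e m M L ψ z x → ∀ W : Subgroup G → (G → ℂ) → ℂ, (∀ l ∈ L, ∀ E' η, W (cjS l E') (cjF l η) = W E' η) →
    ∑ᶠ E' : Subgroup G, (Nat.card (L ⊓ nz E' : Subgroup G) : ℂ) * ∑ᶠ η ∈ BE p e m M L (L ⊓ nz E') E' ψ, W E' η =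
      (Nat.card L : ℂ) * ∑ᶠ η ∈ BE p e m M L (L ⊓ nz (Eg p e z)) (Eg p e z) ψ, W (Eg p e z) η

/-- **YTL** (short; from CFA, NFV, CNTL; COPY of ZB.ZTL, `helper66/ZB/ZTL.lean`, with `nrm C ⊓ G₀` in place of `nrm C`). Normalisers of normal chains of subgroups of `G₀` are local in `G₀`. -/
def YTL_stmt : Prop :=
  ∀ (p : ℕ) (M : Ideal (integralClosure ℤ ℂ)), Setup p M → ∀ (G : Type) [Group G] [Finite G] (G₀ R : Subgroup G) (C : Finset (Subgroup G)),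
    NCh p G₀ R C → ∀ φ ∈ IrrOn (nrm C ⊓ G₀), ∀ (Q : Subgroup G) (y : G), DefL p M (nrm C ⊓ G₀) φ Q y → G₀ ⊓ cz Q ≤ nrm C ⊓ G₀

/-- **YNL** (PORT by script of `NE.YNL`, `helper95/NE/YNL.lean`; locality hypothesis for NUH). -/
def YNL_stmt : Prop :=
  ∀ (p e : ℕ) (m : Pm) (M : Ideal (integralClosure ℤ ℂ)), Setup p M → (∀ (Γ : Type) [Group Γ] [Finite Γ], MZc p m M Γ) → 2 * m.a + 5 ≤ e →
    ∀ (G : Type) [Group G] [Finite G] (G₀ : Subgroup G), G₀.Normal → ∀ χ₀ ∈ IrrOn G₀, ∀ z x : G, Ucl p e m M G₀ χ₀ z x → ∀ (d : ℤ) (Δ : Subgroup G),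
    (∀ φ ∈ IrrOn (Δ ⊓ G₀), ∀ (Q : Subgroup G) (y : G), DefL p M (Δ ⊓ G₀) φ Q y → G₀ ⊓ cz Q ≤ Δ ⊓ G₀) →
    (hB p M G₀ χ₀ d Δ : ℂ) = ∑ᶠ E' : Subgroup G, (hE p e m M G₀ χ₀ d E' (Δ ⊓ nz E') : ℂ)

/-- **YNF** (short to medium; from YNL, YTL, YTG (`NE.YTG_stmt`), FNO, NEG, B2; model `helper24/NE/YNF.lean` and `helper61/ZD/TDF.lean`). THE CHAIN SUM. Proof: FNO (`L = G₀`, `P = ⊥`, `N = ⊤`, `g = hB ..`): the sum over the NORMAL chains `NCh p G₀ ⊥ C` (`⊤ ⊓ nrm C = nrm C`). Cast to `ℂ`; YNL for `Δ = nrm C` (local: YTL); exchange the sums. Fix `E'`. If some `hE .. E' K ≠ 0` then (as in `helper24/NE/YNF.lean`, NEG) `E' ≤ K ⊓ G₀`,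
`E'` is a `p`-group, `E' ≠ ⊥`. FNO back (`L = G₀`, `P = ⊥`, `N = nz E'`, `g = hE .. E'`): the sum over all chains `PCh p G₀ ⊥ C` of `hE .. E' (nz E' ⊓ nrm C)`; the terms with `¬ E' ≤ nrm C` are `0`; YTG (`R = ⊥`, `F K = hE .. E' K` as a complex number). -/
def YNF_stmt : Prop :=
  ∀ (p e : ℕ) (m : Pm) (M : Ideal (integralClosure ℤ ℂ)), Setup p M → (∀ (Γ : Type) [Group Γ] [Finite Γ], MZc p m M Γ) → 2 * m.a + 5 ≤ e →
    ∀ (G : Type) [Group G] [Finite G] (G₀ : Subgroup G), G₀.Normal → ∀ χ₀ ∈ IrrOn G₀, ∀ z x : G, Ucl p e m M G₀ χ₀ z x → ∀ d : ℤ, cSum p G₀ ⊥ ⊤ (hB p M G₀ χ₀ d) = 0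

/-- **YNG** (PORT by script of `NE.YNG`). -/
def YNG_stmt : Prop :=
  ∀ (p e : ℕ) (m : Pm) (M : Ideal (integralClosure ℤ ℂ)), Setup p M → (∀ (Γ : Type) [Group Γ] [Finite Γ], MZc p m M Γ) → 2 * m.a + 5 ≤ e →
    ∀ (G : Type) [Group G] [Finite G] (G₀ : Subgroup G),
    G₀.Normal → ∀ χ₀ ∈ IrrOn G₀, (∀ g : G, SB M G₀ (cjF g χ₀) χ₀) → ∀ z x : G, Ucl p e m M G₀ χ₀ z x → ∀ d : ℤ,
    cSum p G₀ ⊥ ⊤ (hf p M G₀ G₀ (omega χ₀) d) = 0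

/-- **YTC** (short to medium; from `Pool.Agent.NE.YTC_stmt`, B13, DCM, CLS, TPR; model `helper92/NE/YTC.lean` and `helper43/ZD/YE1.lean` (3)). Transport along `i = X.inc`. Proof: the items 1, 3, 4 and all fields of `Ucl` except `df` are `Pool.Agent.NE.YTC_stmt` (trick of NUB: `cd` holds for `m' = pp p (Cz ⊤ (z * x))`). `df`: `(D, y)`, `DefL p M ⊤ χ D y`, `KY p e m D` ↦ `(D.map i, i y)`: the fields of `DefL` by the lemmas of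
`helper92/NE/YTC.lean` (`YTC_cls`, `YTC_cc`, `YTC_Cz`: `cc (ext0 i χ) (cls i.range (i y)) = cc χ (cls ⊤ y)`, `Cz i.range (i y) = (Cz ⊤ y).map i`, the same cardinality; every element of `i.range` is `i y'`); `KY p e m (D.map i)`: `Z.map i`, orders, cardinalities and `Om` are preserved by the injective `i` (as conjugation in YE1 (3)). -/
def YTC_stmt : Prop :=
  ∀ (p e : ℕ) (m : Pm) (M : Ideal (integralClosure ℤ ℂ)), Setup p M → ∀ (G E A : Type) [Group G] [Group E] [Group A] [Finite G] [Finite E] (X : Extension G E A),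
    ∀ χ ∈ Irr G, ext0 X.inc χ ∈ IrrOn X.inc.range ∧
    (∀ z x : G, Ucl p e m M (⊤ : Subgroup G) χ z x → Ucl p e m M X.inc.range (ext0 X.inc χ) (X.inc z) (X.inc x)) ∧
    X.inc.range.Normal ∧
    (Stable X M χ → ∀ g : E, SB M X.inc.range (cjF g (ext0 X.inc χ)) (ext0 X.inc χ))

/-- **YNX** (PORT by script of `NE.YNX`). -/
def YNX_stmt : Prop :=
  ∀ (p e : ℕ) (m : Pm) (M : Ideal (integralClosure ℤ ℂ)), Setup p M → (∀ (Γ : Type) [Group Γ] [Finite Γ], MZc p m M Γ) → 2 * m.a + 5 ≤ e →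
    ∀ (G E A : Type) [Group G] [Group E] [Group A] [Finite G] [Finite E] (X : Extension G E A), IsOp p (⊤ : Subgroup G) ⊥ →
    ∀ χ ∈ Irr G, ∀ z x : G, Ucl p e m M (⊤ : Subgroup G) χ z x → ∀ d : ℤ, altSum X p M χ d ⊤ = 0

/-- **YNU** (short; from YNX, RE of DC, D13 of DI, DG6, CLS, TPR, NEG, YE1, ZB.ZMN; models `helper27/NE/YNU.lean` and `helper64/ZD/NDQ.lean` (`NDQ_count`)). THE FINAL STATEMENT: Q1 in full. Proof: as in NDQ: `DefL p M ⊤ χ D x`, `KZ p κ D` for `κ = ⟨a, r, s, w, 1⟩`; YE1 (6): `KY p e κ D` for some `e`; YE1 (1): `2 * a + 5 ≤ e`; YE1 (5): `z ∈ D` central in `D` of order `p ^ e`; DG6 (as in `helper27/NE/YNU.lean`): `Ucl p e κ M ⊤ χ z x` (`df := ⟨D, x, _, _⟩`).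
ZMN: `MZc p κ M Γ` for all `Γ`. Then D13, RE, YNX for `resE X V` as in `helper27/NE/YNU.lean`. -/
def YNU_stmt : Prop :=
  ∀ (p : ℕ) (M : Ideal (integralClosure ℤ ℂ)), Setup p M → ∀ a r s w : ℕ, a ≤ s → a + 4 ≤ w →
    (∀ κ : Pm, κ.a = a → κ.r = r → κ.w = w → BDK p κ M w) →
    ∀ (G E A : Type) [Group G] [Group E] [Group A] [Finite G] [Finite E] (X : Extension G E A), IsOp p (⊤ : Subgroup G) ⊥ →
    ∀ χ ∈ Irr G, ∀ D : Subgroup G, Pool.Agent.MAP.DefectGroup p M χ D → ∀ Z ≤ D,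
    (∀ z ∈ Z, ∀ x ∈ D, z * x = x * z) → Nat.card D ≤ p ^ a * Nat.card Z → {z | z ∈ Z ∧ z ^ p = 1}.ncard ≤ p ^ r →
    (Om p (s - a) Z).ncard ≤ p → (∃ z ∈ Z, z ^ p ^ (s + w) ≠ 1) → ∀ (d : ℤ) (U : Subgroup A), altSum X p M χ d U = 0

end Pool.Agent.NE.NY
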