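import Pool.Agent.helper7.ZE.Spec

/-!
# ZE port (script) of: THEOREM NE (MP_baa4d7_al), row YST: the structure theorem for the type `G`
-/

set_option autoImplicit false

namespace Pool.Agent.NE.NY

open Pool.Agent.helper58.DC Pool.Agent.DI Pool.Agent.GR Pool.Agent.OB Pool.Agent.DR Pool.Agent.FI Pool.Agent.FI3 Pool.Agent.FI4 Pool.Agent.FI4I Pool.Agent.LE Pool.Agent.L5
open Pool.Agent.NAB hiding Ucl BE NUB_stmt NUD_stmt NUH_stmt NUE_stmt NUF_stmt NTK_stmt NXU_stmt NQU_stmt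
open Pool.Agent.ND hiding GS ZD XX PP ZGD_stmt ZNU_stmt GBC_stmt GUC_stmt GSP_stmt GIM_stmt GST_stmt GOS_stmt GS4_stmt GFX_stmt GAC_stmt GGR_stmt GOU_stmt GSY_stmt GVF_stmt GNV_stmt GDF_stmt GC1_stmt GEV_stmt GQQ_stmt GKQ_stmt TDC_stmt GKE_stmt GKD_stmt TDI_stmt TDL_stmt TDF_stmt NDQ_stmt
open Pool.Agent.ND.NY
open Pool.Agent.ZB (Pm Om KZ EQ BQ lQ MZc BDK)

theorem YST_ff {G : Type} [Group G] (p e : ℕ) (m : Pm) (t : ℕ) (M : Ideal (integralClosure ℤ ℂ)) (χ : G → ℂ) (Z : Subgroup G)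
    (hc : (⊤ ⊓ cz Z : Subgroup G) = cz Z) (hGN : ∀ L : Subgroup G, GN p e m M (⊤ : Subgroup G) χ L Z = GS p e m M χ L Z)
    (L : Subgroup G) (θ₀ : G → ℂ) :
    FF p e m t M (⊤ : Subgroup G) χ Z L θ₀ =
      {ψ : G → ℂ | ψ ∈ GS p e m M χ L Z ∧ ∃ ε : ℂ, (ε = 1 ∨ ε = -1) ∧ ∀ θ ∈ GS p e m M χ (cz Z) Z, ∀ ν : Z →* ℂˣ,
        mt (cz Z) ψ θ - mt (cz Z) ψ (st Z t ν θ) = ε * (iH ⊤ Z θ₀ θ - iH ⊤ Z θ₀ (st Z t ν θ))} := by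
  unfold FF Rw
  rw [hGN, hc, hGN]

theorem YST (hYGA : YGA_stmt) (hYGK : YGK_stmt) (hYGD : YGD_stmt) (hGOU : GOU_stmt) (hGST : GST_stmt) (hGOS : GOS_stmt)
    (hGS4 : GS4_stmt) : YST_stmt := by
  intro p e m t M hM G _ _ χ Z z x hZ
  obtain ⟨hD, hGN, hc, hn, hE, -⟩ := hYGA p e m t M hM G χ Z z x hZ
  have key := hYGK p e m t M hM G χ Z z x hD hZ.eb
  have hL : ∀ L : Subgroup G, L2 p e (⊤ : Subgroup G) z L → L = ⊤ ∨ L = nz (Eg p e z) := by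
    intro L h
    rcases h with h | h
    · exact Or.inl h
    · right
      rw [h, hE]
  refine ⟨?_, ?_, ?_, ?_, ?_, ?_, ?_⟩
  · intro L hL2 ψ hψ
    rw [hGN] at hψ
    obtain ⟨θ₀, h1, ε, h2, h3⟩ := (key L (hL L hL2)).1 ψ hψ
    rw [hc, hGN]
    refine ⟨θ₀, h1, ?_⟩
    rw [YST_ff p e m t M χ Z hc hGN]
    exact ⟨hψ, ε, h2, h3⟩
  · intro L hL2 θ₀ hθ₀
    rw [hc, hGN] at hθ₀
    rw [YST_ff p e m t M χ Z hc hGN, hc, hn]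
    exact (key L (hL L hL2)).2 θ₀ hθ₀
  · intro θ₀ hθ₀ ψ hψ ψ₁ hψ₁ d
    rw [YST_ff p e m t M χ Z hc hGN] at hψ hψ₁
    rw [hE] at hψ₁ ⊢
    obtain ⟨h1, ε, h2, h3⟩ := hψ
    obtain ⟨g1, ε₁, g2, g3⟩ := hψ₁
    exact hYGD p e m t M hM G χ Z z x hD ψ h1 ψ₁ g1 (iH ⊤ Z θ₀) ε ε₁ h2 g2 h3 g3 d
  · intro L hCL _ ψ hψ hψn θ hθ ν
    rw [hc, hGN] at hθ
    rw [hGN] at hψn
    rw [hc] at hCL ⊢
    exact hGOU p e m t M hM G χ Z z x hD L hCL ψ hψ hψn θ hθ (st Z t ν θ) ⟨ν, rfl⟩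
  · intro θ hθ ν
    rw [hc, hGN] at hθ ⊢
    exact hGST p e m t M hM G χ Z z x hD θ hθ ν
  · intro θ hθ
    rw [hc, hGN] at hθ
    have h := hGOS p e m t M hM G χ Z z x hD θ hθ
    exact ⟨h.2.1, h.1⟩
  · intro θ hθ n hn' hs k hk
    rw [hc, hGN] at hθ
    rw [hn] at hn'
    rw [hc] at hs
    exact hGS4 p e m t M hM G χ Z z x hD θ hθ n hn' hs k hk

end Pool.Agent.NE.NY
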